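import Pool.Agent.H369Z.Hoh.Defs

set_option autoImplicit false

open Finset Filter MeasureTheory

namespace Pool.Agent.H480Z.Mol

open Pool.Agent.H369Z.Hoh

noncomputable section

/-- the double sum defining the mollifier -/
def MM (δ R R' : ℝ) (s : ℂ) : ℂ :=
  ∑ d ∈ Icc 1 ⌊R⌋₊, ∑ e ∈ Icc 1 ⌊R'⌋₊,
    ((wt δ R d * wt δ R' e : ℝ) : ℂ) * ((Nat.lcm d e : ℕ) : ℂ) ^ (-s)

theorem lcm_pos' {R R' : ℝ} {d e : ℕ} (hd : d ∈ Icc 1 ⌊R⌋₊) (he : e ∈ Icc 1 ⌊R'⌋₊) :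
    0 < Nat.lcm d e :=
  Nat.lcm_pos (mem_Icc.1 hd).1 (mem_Icc.1 he).1

theorem MM_diff (δ R R' : ℝ) : Differentiable ℂ (MM δ R R') := by
  unfold MM
  refine Differentiable.fun_sum fun d hd => Differentiable.fun_sum fun e he => ?_
  have h : ((Nat.lcm d e : ℕ) : ℂ) ≠ 0 := by exact_mod_cast (lcm_pos' hd he).ne'
  exact (differentiable_id.neg.const_cpow (Or.inl h)).const_mul _

theorem wt_le {δ R : ℝ} (hδ : 0 < δ) (hR : 0 ≤ R) {d : ℕ} (hd : d ∈ Icc 1 ⌊R⌋₊) :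
    |wt δ R d| ≤ R ^ δ := by
  have h1 : (d : ℝ) ≤ R := (Nat.le_floor_iff hR).1 (mem_Icc.1 hd).2
  have h2 : (d : ℝ) ^ δ ≤ R ^ δ := Real.rpow_le_rpow (Nat.cast_nonneg d) h1 hδ.le
  have h3 : 0 ≤ (d : ℝ) ^ δ := Real.rpow_nonneg (Nat.cast_nonneg d) _
  have h4 : |((ArithmeticFunction.moebius d : ℤ) : ℝ)| ≤ 1 := by
    exact_mod_cast ArithmeticFunction.abs_moebius_le_one
  unfold wt
  rw [abs_mul, abs_of_nonneg (sub_nonneg.2 h2)]
  nlinarith [abs_nonneg ((ArithmeticFunction.moebius d : ℤ) : ℝ)]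

theorem sum_le {δ R R' : ℝ} (hδ : 0 < δ) (hR : 0 ≤ R) (hR' : 0 ≤ R') (g : ℕ → ℕ → ℂ) {B : ℝ}
    (hB : 0 ≤ B) (hg : ∀ d ∈ Icc 1 ⌊R⌋₊, ∀ e ∈ Icc 1 ⌊R'⌋₊, ‖g d e‖ ≤ B) :
    ‖∑ d ∈ Icc 1 ⌊R⌋₊, ∑ e ∈ Icc 1 ⌊R'⌋₊, ((wt δ R d * wt δ R' e : ℝ) : ℂ) * g d e‖
      ≤ R * R' * (R ^ δ * R' ^ δ * B) := by
  have hp : 0 ≤ R ^ δ * R' ^ δ * B := by positivity
  calc _ ≤ ∑ d ∈ Icc 1 ⌊R⌋₊, ‖∑ e ∈ Icc 1 ⌊R'⌋₊, ((wt δ R d * wt δ R' e : ℝ) : ℂ) * g d e‖ :=
        norm_sum_le _ _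
    _ ≤ ∑ d ∈ Icc 1 ⌊R⌋₊, ∑ e ∈ Icc 1 ⌊R'⌋₊, R ^ δ * R' ^ δ * B := by
        refine sum_le_sum fun d hd => (norm_sum_le _ _).trans (sum_le_sum fun e he => ?_)
        rw [norm_mul, Complex.norm_real, Real.norm_eq_abs, abs_mul]
        have h1 := wt_le hδ hR hd
        have h2 := wt_le hδ hR' he
        have h3 := hg d hd e he
        gcongr
    _ = (⌊R⌋₊ : ℝ) * (⌊R'⌋₊ : ℝ) * (R ^ δ * R' ^ δ * B) := by simp; ring
    _ ≤ R * R' * (R ^ δ * R' ^ δ * B) := by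
        have h1 := Nat.floor_le hR
        have h2 := Nat.floor_le hR'
        gcongr

/-- the error term for one modulus -/
def err (N f : ℕ) (s : ℂ) : ℂ :=
  riemannZeta s * (f : ℂ) ^ (-s) - (∑ n ∈ (Icc 1 N).filter (fun n => f ∣ n), (n : ℂ) ^ (-s))
    - (f : ℂ)⁻¹ * ((N : ℂ) ^ (1 - s) / (s - 1))

theorem err_le {N f : ℕ} (hf : 0 < f) (hN : 2 * f ≤ N) {s : ℂ} (hs : 1 / 2 ≤ s.re) (hs1 : s ≠ 1) :
    ‖err N f s‖ ≤ ((N : ℝ) / 2) ^ (-s.re) * (1 + 2 * ‖s‖) := by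
  set K := N / f with hK
  have hK1 : 1 ≤ K := (Nat.le_div_iff_mul_le hf).2 (by omega)
  have hs0 : 0 < s.re := by linarith
  have hle : f * K ≤ N := Nat.mul_div_le N f
  have hlt : N < f * K + f := by
    have := Nat.div_add_mod N f
    have := Nat.mod_lt N hf
    rw [hK]; omega
  have hfc : (f : ℂ) ≠ 0 := by exact_mod_cast hf.ne'
  have hfr : (0 : ℝ) < f := by exact_mod_cast hf
  have hKr : (0 : ℝ) < K := by exact_mod_cast hK1
  have hA : (N : ℝ) / 2 ≤ ((f * K : ℕ) : ℝ) := by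
    have h1 : N ≤ 2 * (f * K) := by omega
    have h2 : (N : ℝ) ≤ 2 * ((f * K : ℕ) : ℝ) := by exact_mod_cast h1
    linarith
  have hN0 : (0 : ℝ) < (N : ℝ) / 2 := by
    have : (0 : ℝ) < N := by exact_mod_cast (by omega : 0 < N)
    linarith
  have hA0 : (0 : ℝ) < ((f * K : ℕ) : ℝ) := lt_of_lt_of_le hN0 hA
  have hP : ((f * K : ℕ) : ℝ) ^ (-s.re) ≤ ((N : ℝ) / 2) ^ (-s.re) :=
    Real.rpow_le_rpow_of_nonpos hN0 hA (by linarith)
  have hsum : (∑ m ∈ Icc 1 K, (m : ℂ) ^ (-s)) * (f : ℂ) ^ (-s)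
      = ∑ n ∈ (Icc 1 N).filter (fun n => f ∣ n), (n : ℂ) ^ (-s) := by
    rw [sum_mul]
    refine sum_bij (fun m _ => f * m) ?_ ?_ ?_ ?_
    · intro m hm
      rw [mem_Icc] at hm
      rw [mem_filter, mem_Icc]
      exact ⟨⟨Nat.mul_pos hf hm.1, (Nat.mul_le_mul_left f hm.2).trans hle⟩, Dvd.intro _ rfl⟩
    · intro a _ b _ h
      exact Nat.eq_of_mul_eq_mul_left hf h
    · intro n hn
      rw [mem_filter, mem_Icc] at hn
      obtain ⟨⟨h1, h2⟩, m, rfl⟩ := hn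
      refine ⟨m, mem_Icc.2 ⟨Nat.pos_of_mul_pos_left h1, ?_⟩, rfl⟩
      exact (Nat.le_div_iff_mul_le hf).2 (by rwa [mul_comm])
    · intro m _
      rw [Nat.cast_mul, Complex.natCast_mul_natCast_cpow, mul_comm]
  have hs1' : s - 1 ≠ 0 := sub_ne_zero.2 hs1
  have hint : ∫ y in ((f * K : ℕ) : ℝ)..(N : ℝ), (y : ℂ) ^ (-s)
      = (((f * K : ℕ) : ℂ) ^ (1 - s) - (N : ℂ) ^ (1 - s)) / (s - 1) := by
    rw [integral_cpow (Or.inr ⟨fun h => hs1 (neg_injective h), ?_⟩)]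
    · have e1 : -s + 1 = 1 - s := by ring
      have e2 : 1 - s = -(s - 1) := by ring
      rw [e1, Complex.ofReal_natCast, Complex.ofReal_natCast]
      nth_rewrite 3 [e2]
      rw [div_neg, ← neg_div, neg_sub]
    · rw [Set.uIcc_of_le (by exact_mod_cast hle)]
      exact fun h => absurd h.1 (not_le.2 hA0)
  have hpole : (K : ℂ) ^ (1 - s) * (f : ℂ) ^ (-s) = (f : ℂ)⁻¹ * ((f * K : ℕ) : ℂ) ^ (1 - s) := by
    rw [Nat.cast_mul, Complex.natCast_mul_natCast_cpow, sub_eq_add_neg, Complex.cpow_add _ _ hfc,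
      Complex.cpow_one]
    field_simp
  have herr : err N f s = (f : ℂ)⁻¹ * (∫ y in ((f * K : ℕ) : ℝ)..(N : ℝ), (y : ℂ) ^ (-s))
      + s * Pool.Agent.H307R2.TM K Pool.Agent.H307R2.Ez s * (f : ℂ) ^ (-s) := by
    unfold err
    rw [Pool.Agent.H307R2.zeta_eq hK1 hs0 hs1, ← hsum, hint, add_mul, add_mul, div_mul_eq_mul_div,
      hpole]
    field_simp
    ring
  have hb1 : ‖(f : ℂ)⁻¹ * (∫ y in ((f * K : ℕ) : ℝ)..(N : ℝ), (y : ℂ) ^ (-s))‖
      ≤ ((f * K : ℕ) : ℝ) ^ (-s.re) := by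
    have h1 : ‖∫ y in ((f * K : ℕ) : ℝ)..(N : ℝ), (y : ℂ) ^ (-s)‖
        ≤ ((f * K : ℕ) : ℝ) ^ (-s.re) * |(N : ℝ) - ((f * K : ℕ) : ℝ)| := by
      refine intervalIntegral.norm_integral_le_of_norm_le_const fun y hy => ?_
      rw [Set.uIoc_of_le (by exact_mod_cast hle)] at hy
      rw [Complex.norm_cpow_eq_rpow_re_of_pos (hA0.trans hy.1), Complex.neg_re]
      exact Real.rpow_le_rpow_of_nonpos hA0 hy.1.le (by linarith)
    have h2 : |(N : ℝ) - ((f * K : ℕ) : ℝ)| ≤ f := by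
      have h3 : ((f * K : ℕ) : ℝ) ≤ N := by exact_mod_cast hle
      have h4 : (N : ℝ) ≤ ((f * K : ℕ) : ℝ) + f := by exact_mod_cast hlt.le
      rw [abs_le]; constructor <;> linarith
    rw [norm_mul, norm_inv, Complex.norm_natCast, inv_mul_le_iff₀ hfr]
    have h5 : 0 ≤ ((f * K : ℕ) : ℝ) ^ (-s.re) := Real.rpow_nonneg hA0.le _
    calc _ ≤ _ := h1
      _ ≤ ((f * K : ℕ) : ℝ) ^ (-s.re) * f := by gcongr
      _ = _ := mul_comm _ _
  have hb2 : ‖s * Pool.Agent.H307R2.TM K Pool.Agent.H307R2.Ez s * (f : ℂ) ^ (-s)‖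
      ≤ 2 * ‖s‖ * ((f * K : ℕ) : ℝ) ^ (-s.re) := by
    have h1 := Pool.Agent.H307R2.TM_norm_le hK1 Pool.Agent.H307R2.Ez_norm_le hs0
    have h2 : (K : ℝ) ^ (-s.re) / s.re ≤ 2 * (K : ℝ) ^ (-s.re) := by
      rw [div_le_iff₀ hs0]
      have : 0 ≤ (K : ℝ) ^ (-s.re) := Real.rpow_nonneg hKr.le _
      nlinarith
    rw [norm_mul, norm_mul, Complex.norm_natCast_cpow_of_pos hf, Complex.neg_re, Nat.cast_mul,
      Real.mul_rpow hfr.le hKr.le]
    have h3 : 0 ≤ (f : ℝ) ^ (-s.re) := Real.rpow_nonneg hfr.le _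
    calc _ ≤ ‖s‖ * (2 * (K : ℝ) ^ (-s.re)) * (f : ℝ) ^ (-s.re) := by
          gcongr
          linarith
      _ = _ := by ring
  rw [herr]
  refine (norm_add_le _ _).trans ?_
  have h6 : 0 ≤ ‖s‖ := norm_nonneg _
  nlinarith

theorem zeta_MM (δ R R' : ℝ) (N : ℕ) (s : ℂ) :
    riemannZeta s * MM δ R R' s
      = ∑ n ∈ Icc 1 N, ((LR δ R n * LR δ R' n : ℝ) : ℂ) * (n : ℂ) ^ (-s)
        + (QF δ 1 R R' : ℂ) * ((N : ℂ) ^ (1 - s) / (s - 1))
        + ∑ d ∈ Icc 1 ⌊R⌋₊, ∑ e ∈ Icc 1 ⌊R'⌋₊,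
          ((wt δ R d * wt δ R' e : ℝ) : ℂ) * err N (Nat.lcm d e) s := by
  have h1 : ∑ n ∈ Icc 1 N, ((LR δ R n * LR δ R' n : ℝ) : ℂ) * (n : ℂ) ^ (-s)
      = ∑ d ∈ Icc 1 ⌊R⌋₊, ∑ e ∈ Icc 1 ⌊R'⌋₊, ((wt δ R d * wt δ R' e : ℝ) : ℂ) *
        ∑ n ∈ (Icc 1 N).filter (fun n => Nat.lcm d e ∣ n), (n : ℂ) ^ (-s) := by
    simp only [LR, sum_filter, sum_mul_sum]
    simp only [mul_sum]
    push_cast
    simp only [sum_mul]
    rw [sum_comm]
    refine sum_congr rfl fun d _ => ?_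
    rw [sum_comm]
    refine sum_congr rfl fun e _ => sum_congr rfl fun n _ => ?_
    by_cases hd : d ∣ n <;> by_cases he : e ∣ n <;> simp [hd, he, Nat.lcm_dvd_iff]
  have h2 : (QF δ 1 R R' : ℂ) * ((N : ℂ) ^ (1 - s) / (s - 1))
      = ∑ d ∈ Icc 1 ⌊R⌋₊, ∑ e ∈ Icc 1 ⌊R'⌋₊, ((wt δ R d * wt δ R' e : ℝ) : ℂ) *
        (((Nat.lcm d e : ℕ) : ℂ)⁻¹ * ((N : ℂ) ^ (1 - s) / (s - 1))) := by
    simp only [QF, Real.rpow_neg_one]
    push_cast
    simp only [sum_mul]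
    exact sum_congr rfl fun d _ => sum_congr rfl fun e _ => by ring
  rw [h1, h2, MM]
  simp only [mul_sum, ← sum_add_distrib]
  refine sum_congr rfl fun d _ => sum_congr rfl fun e _ => ?_
  simp only [err, ← mul_sum]
  ring

theorem exp_rpow {L : ℝ} (hL : 0 < L) (k : ℝ) : Real.exp (k * L) ^ (1 / L) = Real.exp k := by
  rw [← Real.exp_mul]
  congr 1
  field_simp

theorem LR_eq {δ R : ℝ} {n : ℕ} (hn : 1 ≤ n) (hnR : n ≤ ⌊R⌋₊) :
    LR δ R n = ∑ d ∈ n.divisors, wt δ R d := by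
  unfold LR
  congr 1
  ext d
  rw [mem_filter, mem_Icc, Nat.mem_divisors]
  constructor
  · exact fun h => ⟨h.2, by omega⟩
  · exact fun h => ⟨⟨Nat.pos_of_dvd_of_pos h.1 hn, (Nat.le_of_dvd hn h.1).trans hnR⟩, h.1⟩

theorem sum_moebius (n : ℕ) :
    ∑ d ∈ n.divisors, ((ArithmeticFunction.moebius d : ℤ) : ℝ) = if n = 1 then 1 else 0 := by
  have h := congrArg (fun f : ArithmeticFunction ℝ => f n)
    (ArithmeticFunction.coe_moebius_mul_coe_zeta (R := ℝ))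
  simp only [ArithmeticFunction.coe_mul_zeta_apply, ArithmeticFunction.intCoe_apply,
    ArithmeticFunction.one_apply] at h
  exact h

theorem cc_small {L : ℝ} (hL : 0 < L) {n : ℕ} (hn : 1 ≤ n) (hn4 : n ≤ ⌊Real.exp (4 * L)⌋₊) :
    cc L n = if n = 1 then (Real.exp 5 - Real.exp 4) * (Real.exp 1 - 1) else 0 := by
  have h5 : n ≤ ⌊Real.exp (5 * L)⌋₊ :=
    hn4.trans (Nat.floor_le_floor (Real.exp_le_exp.2 (by linarith)))
  have h1 : LR (1 / L) (Real.exp (5 * L)) n - LR (1 / L) (Real.exp (4 * L)) n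
      = (Real.exp 5 - Real.exp 4) * if n = 1 then 1 else 0 := by
    rw [LR_eq hn h5, LR_eq hn hn4, ← sum_sub_distrib, ← sum_moebius, mul_sum]
    refine sum_congr rfl fun d _ => ?_
    simp only [wt, exp_rpow hL]
    ring
  unfold cc
  rw [h1]
  split_ifs with h
  · subst h
    have h2 : 1 ≤ ⌊Real.exp L⌋₊ := Nat.le_floor (by simpa using hL.le)
    rw [LR_eq le_rfl h2]
    have h3 := exp_rpow hL 1
    rw [one_mul] at h3
    simp only [Nat.divisors_one, sum_singleton, wt, h3]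
    simp
  · simp

/-- normalising constant -/
def k0 : ℝ := ((Real.exp 5 - Real.exp 4) * (Real.exp 1 - 1))⁻¹

theorem den_ge : 1 ≤ (Real.exp 5 - Real.exp 4) * (Real.exp 1 - 1) := by
  have h1 : (2 : ℝ) ≤ Real.exp 1 := by have := Real.add_one_le_exp (1 : ℝ); linarith
  have h2 : (1 : ℝ) ≤ Real.exp 4 := Real.one_le_exp (by norm_num)
  have h3 : Real.exp 5 = Real.exp 4 * Real.exp 1 := by rw [← Real.exp_add]; norm_num
  have h4 : 1 ≤ Real.exp 5 - Real.exp 4 := by rw [h3]; nlinarith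
  nlinarith

theorem k0_pos : 0 < k0 := inv_pos.2 (lt_of_lt_of_le one_pos den_ge)

theorem k0_le : k0 ≤ 1 := inv_le_one_of_one_le₀ den_ge

/-- the mollifier -/
def Mo (L : ℝ) (s : ℂ) : ℂ :=
  (k0 : ℂ) * (MM (1 / L) (Real.exp (5 * L)) (Real.exp L) s
    - MM (1 / L) (Real.exp (4 * L)) (Real.exp L) s)

theorem box_le {L k : ℝ} (hL : 0 < L) (hk : k ≤ 5) {B : ℝ} (hB : 0 ≤ B) :
    Real.exp (k * L) * Real.exp L * (Real.exp (k * L) ^ (1 / L) * Real.exp L ^ (1 / L) * B)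
      ≤ Real.exp (6 * L) * (Real.exp 6 * B) := by
  have h3 := exp_rpow hL 1
  rw [one_mul] at h3
  rw [exp_rpow hL, h3, ← Real.exp_add, ← Real.exp_add]
  have h1 : Real.exp (k * L + L) ≤ Real.exp (6 * L) := Real.exp_le_exp.2 (by nlinarith)
  have h2 : Real.exp (k + 1) ≤ Real.exp 6 := Real.exp_le_exp.2 (by linarith)
  gcongr

theorem MM_le {L k : ℝ} (hL : 0 < L) (hk : k ≤ 5) {s : ℂ} (hs : 0 ≤ s.re) :
    ‖MM (1 / L) (Real.exp (k * L)) (Real.exp L) s‖ ≤ Real.exp (6 * L) * (Real.exp 6 * 1) := by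
  refine (sum_le (by positivity) (Real.exp_pos _).le (Real.exp_pos _).le _ zero_le_one
    fun d hd e he => ?_).trans (box_le hL hk zero_le_one)
  rw [Complex.norm_natCast_cpow_of_pos (lcm_pos' hd he), Complex.neg_re]
  exact Real.rpow_le_one_of_one_le_of_nonpos (by exact_mod_cast lcm_pos' hd he) (by linarith)

theorem floor_ge {L : ℝ} (hL : 4 ≤ L) : 2 * Real.exp (16 * L) ≤ (⌊Real.exp (20 * L)⌋₊ : ℝ) := by
  have h1 := Nat.lt_floor_add_one (Real.exp (20 * L))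
  have h2 : Real.exp (20 * L) = Real.exp (16 * L) * Real.exp (4 * L) := by
    rw [← Real.exp_add]; ring_nf
  have h3 : (3 : ℝ) ≤ Real.exp (4 * L) := by have := Real.add_one_le_exp (4 * L); linarith
  have h4 : 1 ≤ Real.exp (16 * L) := Real.one_le_exp (by linarith)
  nlinarith

theorem E_le {L k : ℝ} (hL : 4 ≤ L) (hk : k ≤ 5) {s : ℂ} (hs : 3 / 4 ≤ s.re) (hs1 : s ≠ 1)
    (hsn : ‖s‖ ≤ 2 * Real.exp (2 * L)) :
    ‖∑ d ∈ Icc 1 ⌊Real.exp (k * L)⌋₊, ∑ e ∈ Icc 1 ⌊Real.exp L⌋₊,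
      ((wt (1 / L) (Real.exp (k * L)) d * wt (1 / L) (Real.exp L) e : ℝ) : ℂ) *
        err ⌊Real.exp (20 * L)⌋₊ (Nat.lcm d e) s‖ ≤ 5 * Real.exp 6 * Real.exp (-(4 * L)) := by
  have hL0 : 0 < L := by linarith
  have hB : (0 : ℝ) ≤ Real.exp (-(12 * L)) * (5 * Real.exp (2 * L)) := by positivity
  have hN := floor_ge hL
  refine (sum_le (by positivity) (Real.exp_pos _).le (Real.exp_pos _).le _ hB
    fun d hd e he => ?_).trans ((box_le hL0 hk hB).trans (le_of_eq ?_))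
  · have hd' : (d : ℝ) ≤ Real.exp (k * L) :=
      (Nat.le_floor_iff (Real.exp_pos _).le).1 (mem_Icc.1 hd).2
    have he' : (e : ℝ) ≤ Real.exp L := (Nat.le_floor_iff (Real.exp_pos _).le).1 (mem_Icc.1 he).2
    have h1 : Nat.lcm d e ≤ d * e :=
      Nat.le_of_dvd (Nat.mul_pos (mem_Icc.1 hd).1 (mem_Icc.1 he).1) (Nat.lcm_dvd_mul d e)
    have h2 : ((Nat.lcm d e : ℕ) : ℝ) ≤ Real.exp (16 * L) := by
      calc ((Nat.lcm d e : ℕ) : ℝ) ≤ (d : ℝ) * e := by exact_mod_cast h1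
        _ ≤ Real.exp (k * L) * Real.exp L := by gcongr
        _ = Real.exp (k * L + L) := (Real.exp_add _ _).symm
        _ ≤ _ := Real.exp_le_exp.2 (by nlinarith)
    have h3 : 2 * Nat.lcm d e ≤ ⌊Real.exp (20 * L)⌋₊ := by
      have : ((2 * Nat.lcm d e : ℕ) : ℝ) ≤ (⌊Real.exp (20 * L)⌋₊ : ℝ) := by push_cast; linarith
      exact_mod_cast this
    refine (err_le (lcm_pos' hd he) h3 (by linarith) hs1).trans ?_
    have h4 : ((⌊Real.exp (20 * L)⌋₊ : ℝ) / 2) ^ (-s.re) ≤ Real.exp (-(12 * L)) := by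
      calc _ ≤ Real.exp (16 * L) ^ (-s.re) :=
            Real.rpow_le_rpow_of_nonpos (Real.exp_pos _) (by linarith) (by linarith)
        _ = Real.exp (16 * L * (-s.re)) := (Real.exp_mul _ _).symm
        _ ≤ _ := Real.exp_le_exp.2 (by nlinarith)
    have h5 : 1 ≤ Real.exp (2 * L) := Real.one_le_exp (by linarith)
    have h6 : 1 + 2 * ‖s‖ ≤ 5 * Real.exp (2 * L) := by linarith
    gcongr
  · have : Real.exp (-(4 * L)) = Real.exp (6 * L) * Real.exp (-(12 * L)) * Real.exp (2 * L) := by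
      rw [← Real.exp_add, ← Real.exp_add]; ring_nf
    rw [this]; ring

theorem QF_le {C : ℝ} (hC : 0 < C) (h : ∀ δ R R' α : ℝ, 0 < δ → δ ≤ 1 / 2 → 1 ≤ R → 1 ≤ R' →
    (α = 1 ∨ α = 1 + δ) → |QF δ α R R'| ≤ C * (R * R') ^ (3 * δ) * δ ^ 2 * (1 + Real.log R))
    {L k : ℝ} (hL : 4 ≤ L) (hk0 : 0 ≤ k) (hk : k ≤ 5) :
    |QF (1 / L) 1 (Real.exp (k * L)) (Real.exp L)| ≤ 6 * C * Real.exp 18 / L := by
  have hL0 : 0 < L := by linarith
  have h1 := h (1 / L) (Real.exp (k * L)) (Real.exp L) 1 (by positivity)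
    (one_div_le_one_div_of_le (by norm_num) (by linarith)) (Real.one_le_exp (by positivity))
    (Real.one_le_exp hL0.le) (Or.inl rfl)
  refine h1.trans ?_
  rw [Real.log_exp, ← Real.exp_add, ← Real.exp_mul]
  have h2 : Real.exp ((k * L + L) * (3 * (1 / L))) ≤ Real.exp 18 := by
    refine Real.exp_le_exp.2 ?_
    have : (k * L + L) * (3 * (1 / L)) = 3 * (k + 1) := by field_simp
    rw [this]; linarith
  have h3 : 1 + k * L ≤ 6 * L := by nlinarith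
  calc _ ≤ C * Real.exp 18 * (1 / L) ^ 2 * (6 * L) := by gcongr
    _ = _ := by field_simp

/-- the Dirichlet polynomial -/
def DP (L : ℝ) (s : ℂ) : ℂ :=
  ∑ n ∈ Ioc ⌊Real.exp (4 * L)⌋₊ ⌊Real.exp (20 * L)⌋₊, ((cc L n : ℝ) : ℂ) * (n : ℂ) ^ (-s)

theorem main_split {L : ℝ} (hL : 0 < L) (s : ℂ) :
    ∑ n ∈ Icc 1 ⌊Real.exp (20 * L)⌋₊, ((cc L n : ℝ) : ℂ) * (n : ℂ) ^ (-s)
      = (((Real.exp 5 - Real.exp 4) * (Real.exp 1 - 1) : ℝ) : ℂ) + DP L s := by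
  have h1 : 1 ≤ ⌊Real.exp (4 * L)⌋₊ := Nat.le_floor (by simpa using hL.le)
  have h2 : ⌊Real.exp (4 * L)⌋₊ ≤ ⌊Real.exp (20 * L)⌋₊ :=
    Nat.floor_le_floor (Real.exp_le_exp.2 (by linarith))
  have h3 : Icc 1 ⌊Real.exp (20 * L)⌋₊ = Ioc 0 ⌊Real.exp (20 * L)⌋₊ := rfl
  rw [h3, ← sum_Ioc_consecutive _ (Nat.zero_le _) h2, DP]
  congr 1
  rw [sum_eq_single_of_mem 1 (mem_Ioc.2 ⟨one_pos, h1⟩)]
  · rw [cc_small hL le_rfl h1]; simp
  · intro n hn hn1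
    rw [mem_Ioc] at hn
    rw [cc_small hL hn.1 hn.2, if_neg hn1]; simp

theorem pointwise {C : ℝ} (hC : 0 < C) (h : ∀ δ R R' α : ℝ, 0 < δ → δ ≤ 1 / 2 → 1 ≤ R → 1 ≤ R' →
    (α = 1 ∨ α = 1 + δ) → |QF δ α R R'| ≤ C * (R * R') ^ (3 * δ) * δ ^ 2 * (1 + Real.log R))
    {L a t : ℝ} (hL : 4 ≤ L) (ha : 0 < a) (haL : a ≤ 1 / L) (ht : |t| ≤ Real.exp (2 * L)) :
    ‖riemannZeta (((1 - a : ℝ) : ℂ) + t * Complex.I) * Mo L (((1 - a : ℝ) : ℂ) + t * Complex.I)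
      - 1‖ ^ 2 ≤ 3 * ‖DP L (((1 - a : ℝ) : ℂ) + t * Complex.I)‖ ^ 2
        + 3 * (12 * C * Real.exp 18 / L * Real.exp 20) ^ 2 * (a ^ 2 + t ^ 2)⁻¹
        + 3 * (10 * Real.exp 6 * Real.exp (-(4 * L))) ^ 2 := by
  have hL0 : 0 < L := by linarith
  set s : ℂ := ((1 - a : ℝ) : ℂ) + t * Complex.I with hs
  have hre : s.re = 1 - a := by simp [hs]
  have him : s.im = t := by simp [hs]
  have ha4 : a ≤ 1 / 4 := haL.trans (one_div_le_one_div_of_le (by norm_num) hL)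
  have hs1 : s ≠ 1 := fun h => by rw [h] at hre; simp at hre; linarith
  have hsn : ‖s‖ ≤ 2 * Real.exp (2 * L) := by
    have h1 := Complex.norm_le_abs_re_add_abs_im s
    rw [hre, him, abs_of_nonneg (by linarith)] at h1
    have h5 : 1 ≤ Real.exp (2 * L) := Real.one_le_exp (by linarith)
    linarith
  set N := ⌊Real.exp (20 * L)⌋₊ with hN
  set P : ℂ := ((QF (1 / L) 1 (Real.exp (5 * L)) (Real.exp L)
    - QF (1 / L) 1 (Real.exp (4 * L)) (Real.exp L) : ℝ) : ℂ) * ((N : ℂ) ^ (1 - s) / (s - 1)) with hP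
  set E₂ := ∑ d ∈ Icc 1 ⌊Real.exp (5 * L)⌋₊, ∑ e ∈ Icc 1 ⌊Real.exp L⌋₊,
      ((wt (1 / L) (Real.exp (5 * L)) d * wt (1 / L) (Real.exp L) e : ℝ) : ℂ) *
        err N (Nat.lcm d e) s with hE₂
  set E₁ := ∑ d ∈ Icc 1 ⌊Real.exp (4 * L)⌋₊, ∑ e ∈ Icc 1 ⌊Real.exp L⌋₊,
      ((wt (1 / L) (Real.exp (4 * L)) d * wt (1 / L) (Real.exp L) e : ℝ) : ℂ) *
        err N (Nat.lcm d e) s with hE₁
  have hid : riemannZeta s * Mo L s - 1 = (k0 : ℂ) * (DP L s + P + (E₂ - E₁)) := by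
    have h1 := zeta_MM (1 / L) (Real.exp (5 * L)) (Real.exp L) N s
    have h2 := zeta_MM (1 / L) (Real.exp (4 * L)) (Real.exp L) N s
    have h3 := main_split hL0 s
    have h4 : ∑ n ∈ Icc 1 N, ((cc L n : ℝ) : ℂ) * (n : ℂ) ^ (-s)
        = ∑ n ∈ Icc 1 N, ((LR (1 / L) (Real.exp (5 * L)) n * LR (1 / L) (Real.exp L) n : ℝ) : ℂ)
            * (n : ℂ) ^ (-s)
          - ∑ n ∈ Icc 1 N, ((LR (1 / L) (Real.exp (4 * L)) n * LR (1 / L) (Real.exp L) n : ℝ) : ℂ)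
            * (n : ℂ) ^ (-s) := by
      rw [← sum_sub_distrib]
      refine sum_congr rfl fun n _ => ?_
      simp only [cc]
      push_cast
      ring
    have h5 : (k0 : ℂ) * (((Real.exp 5 - Real.exp 4) * (Real.exp 1 - 1) : ℝ) : ℂ) = 1 := by
      rw [← Complex.ofReal_mul, k0, inv_mul_cancel₀ (lt_of_lt_of_le one_pos den_ge).ne']
      simp
    rw [← hE₂] at h1
    rw [← hE₁] at h2
    rw [← hN, h4] at h3
    rw [Mo, hP, Complex.ofReal_sub]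
    linear_combination (k0 : ℂ) * h1 - (k0 : ℂ) * h2 + (k0 : ℂ) * h3 + h5
  have hE : ‖E₂ - E₁‖ ≤ 10 * Real.exp 6 * Real.exp (-(4 * L)) := by
    have h1 := E_le hL (k := 5) le_rfl (s := s) (by linarith) hs1 hsn
    have h2 := E_le hL (k := 4) (by norm_num) (s := s) (by linarith) hs1 hsn
    have h3 := norm_sub_le E₂ E₁
    linarith
  have hPn : ‖P‖ ^ 2 ≤ (12 * C * Real.exp 18 / L * Real.exp 20) ^ 2 * (a ^ 2 + t ^ 2)⁻¹ := by
    have h1 := QF_le hC h hL (k := 5) (by norm_num) le_rfl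
    have h2 := QF_le hC h hL (k := 4) (by norm_num) (by norm_num)
    have h3 : |QF (1 / L) 1 (Real.exp (5 * L)) (Real.exp L)
        - QF (1 / L) 1 (Real.exp (4 * L)) (Real.exp L)| ≤ 12 * C * Real.exp 18 / L := by
      refine (abs_sub _ _).trans ?_
      have : 12 * C * Real.exp 18 / L = 6 * C * Real.exp 18 / L + 6 * C * Real.exp 18 / L := by ring
      linarith
    have hN0 : 0 < N := by
      have h4 := floor_ge hL
      have h5 := Real.exp_pos (16 * L)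
      have : (0 : ℝ) < N := by rw [hN]; linarith
      exact_mod_cast this
    have h4 : ‖(N : ℂ) ^ (1 - s)‖ ≤ Real.exp 20 := by
      rw [Complex.norm_natCast_cpow_of_pos hN0]
      have h5 : (1 - s).re = a := by simp [hre]
      rw [h5]
      calc (N : ℝ) ^ a ≤ Real.exp (20 * L) ^ a :=
            Real.rpow_le_rpow (Nat.cast_nonneg _) (Nat.floor_le (Real.exp_pos _).le) ha.le
        _ = Real.exp (20 * L * a) := (Real.exp_mul _ _).symm
        _ ≤ _ := by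
            refine Real.exp_le_exp.2 ?_
            have : L * a ≤ 1 := by rwa [le_div_iff₀ hL0, mul_comm] at haL
            linarith
    have h5 : ‖s - 1‖ ^ 2 = a ^ 2 + t ^ 2 := by
      rw [Complex.sq_norm, Complex.normSq_apply]
      simp [hre, him]
      ring
    rw [hP, norm_mul, norm_div, mul_div_assoc', div_pow, h5, div_eq_mul_inv, Complex.norm_real,
      Real.norm_eq_abs]
    gcongr
  have hk : ‖(k0 : ℂ)‖ ≤ 1 := by
    rw [Complex.norm_real, Real.norm_eq_abs, abs_of_pos k0_pos]; exact k0_le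
  have h7 : ‖riemannZeta s * Mo L s - 1‖ ≤ ‖DP L s‖ + ‖P‖ + ‖E₂ - E₁‖ := by
    rw [hid, norm_mul]
    exact (mul_le_of_le_one_left (norm_nonneg _) hk).trans norm_add₃_le
  have h8 : ‖E₂ - E₁‖ ^ 2 ≤ (10 * Real.exp 6 * Real.exp (-(4 * L))) ^ 2 := by gcongr
  have h9 : ‖riemannZeta s * Mo L s - 1‖ ^ 2 ≤ (‖DP L s‖ + ‖P‖ + ‖E₂ - E₁‖) ^ 2 := by gcongr
  nlinarith [sq_nonneg (‖DP L s‖ - ‖P‖), sq_nonneg (‖DP L s‖ - ‖E₂ - E₁‖),
    sq_nonneg (‖P‖ - ‖E₂ - E₁‖)]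

theorem DP_cont (L σ : ℝ) : Continuous fun t : ℝ => DP L ((σ : ℂ) + t * Complex.I) := by
  unfold DP
  refine continuous_finsetSum _ fun n hn => continuous_const.mul ?_
  have h : (n : ℂ) ≠ 0 := by
    have := (mem_Ioc.1 hn).1
    exact_mod_cast (by omega : n ≠ 0)
  exact Continuous.const_cpow (by fun_prop) (Or.inl h)

theorem DP_integrable (L σ T : ℝ) (hT : 0 < T) : Integrable fun t : ℝ =>
    ‖DP L ((σ : ℂ) + t * Complex.I)‖ ^ 2 * Real.exp (-(t ^ 2 / T ^ 2)) := by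
  have h1 : Integrable fun t : ℝ => Real.exp (-(t ^ 2 / T ^ 2)) := by
    refine (integrable_exp_neg_mul_sq (b := 1 / T ^ 2) (by positivity)).congr
      (Eventually.of_forall fun t => ?_)
    simp only
    congr 1
    ring
  refine h1.bdd_mul (c := (∑ n ∈ Ioc ⌊Real.exp (4 * L)⌋₊ ⌊Real.exp (20 * L)⌋₊,
    |cc L n| * (n : ℝ) ^ (-σ)) ^ 2) ((DP_cont L σ).norm.pow 2).aestronglyMeasurable
    (Eventually.of_forall fun t => ?_)
  rw [norm_pow, norm_norm]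
  gcongr
  refine (norm_sum_le _ _).trans (le_of_eq (sum_congr rfl fun n hn => ?_))
  have := (mem_Ioc.1 hn).1
  rw [norm_mul, Complex.norm_real, Real.norm_eq_abs, Complex.norm_natCast_cpow_of_pos (by omega)]
  simp

theorem mol (h1 : S_QF) (h2 : S_DP) : S_MOL := by
  obtain ⟨C₁, hC₁, h1⟩ := h1
  obtain ⟨C₂, hC₂, h2⟩ := h2
  set A : ℝ := 12 * C₁ * Real.exp 18 * Real.exp 20 with hA
  set B : ℝ := 10 * Real.exp 6 with hB
  have hA0 : 0 < A := by positivity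
  have hB0 : 0 < B := by positivity
  refine ⟨2 * Real.exp 6 + 3 * C₂ + 3 * A ^ 2 * Real.pi + 6 * B ^ 2, by positivity,
    fun L hL => ⟨Mo L, ?_, ?_, ?_⟩⟩
  · exact ((MM_diff _ _ _).sub (MM_diff _ _ _)).const_mul _
  · intro s hs
    have hL0 : 0 < L := by linarith
    have hk : ‖(k0 : ℂ)‖ ≤ 1 := by
      rw [Complex.norm_real, Real.norm_eq_abs, abs_of_pos k0_pos]; exact k0_le
    have h3 := MM_le hL0 (k := 5) le_rfl hs
    have h4 := MM_le hL0 (k := 4) (by norm_num) hs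
    rw [Mo, norm_mul]
    refine (mul_le_of_le_one_left (norm_nonneg _) hk).trans ((norm_sub_le _ _).trans ?_)
    have h5 : 0 ≤ (3 * C₂ + 3 * A ^ 2 * Real.pi + 6 * B ^ 2) * Real.exp (6 * L) := by positivity
    nlinarith
  · intro a T H ha haL hT hTL hH hHL
    have hL0 : 0 < L := by linarith
    have hT0 : 0 < T := by linarith
    set F : ℝ → ℝ := fun t => ‖DP L (((1 - a : ℝ) : ℂ) + t * Complex.I)‖ ^ 2 *
      Real.exp (-(t ^ 2 / T ^ 2)) with hF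
    have hFi : Integrable F := DP_integrable L (1 - a) T hT0
    have hF0 : ∀ t, 0 ≤ F t := fun t => by positivity
    have hFle : ∫ t, F t ≤ C₂ / L := h2 L T (1 - a) hL hT hTL (by linarith) (by linarith)
    have hHH : -H ≤ H := by linarith
    have hc2 : Continuous fun t : ℝ => (a ^ 2 + t ^ 2)⁻¹ :=
      Continuous.inv₀ (by fun_prop) fun t => by positivity
    have hi1 : IntervalIntegrable (fun t => 3 * F t) volume (-H) H :=
      (hFi.const_mul 3).intervalIntegrable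
    have hi2 : IntervalIntegrable (fun t : ℝ => 3 * (A / L) ^ 2 * (a ^ 2 + t ^ 2)⁻¹) volume (-H) H :=
      (continuous_const.mul hc2).intervalIntegrable _ _
    have hi3 : IntervalIntegrable (fun _ : ℝ => 3 * (B * Real.exp (-(4 * L))) ^ 2) volume (-H) H :=
      intervalIntegrable_const
    have hmono : ∫ t in (-H)..H, ‖riemannZeta (((1 - a : ℝ) : ℂ) + t * Complex.I) *
        Mo L (((1 - a : ℝ) : ℂ) + t * Complex.I) - 1‖ ^ 2 * Real.exp (-(t ^ 2 / T ^ 2))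
        ≤ ∫ t in (-H)..H, (3 * F t + 3 * (A / L) ^ 2 * (a ^ 2 + t ^ 2)⁻¹
          + 3 * (B * Real.exp (-(4 * L))) ^ 2) := by
      rw [intervalIntegral.integral_of_le hHH, intervalIntegral.integral_of_le hHH]
      refine integral_mono_of_nonneg (Eventually.of_forall fun t => by positivity)
        ((hi1.add hi2).add hi3).1 ?_
      refine (ae_restrict_mem measurableSet_Ioc).mono fun t ht => ?_
      have h3 := pointwise hC₁ h1 hL ha haL (t := t)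
        ((abs_le.2 ⟨ht.1.le, ht.2⟩).trans hHL)
      have h4 : Real.exp (-(t ^ 2 / T ^ 2)) ≤ 1 := Real.exp_le_one_iff.2 (by
        have : 0 ≤ t ^ 2 / T ^ 2 := by positivity
        linarith)
      have h5 := Real.exp_pos (-(t ^ 2 / T ^ 2))
      have h6 : 12 * C₁ * Real.exp 18 / L * Real.exp 20 = A / L := by rw [hA]; ring
      rw [h6, ← hB] at h3
      have h7 : 0 ≤ 3 * (A / L) ^ 2 * (a ^ 2 + t ^ 2)⁻¹ + 3 * (B * Real.exp (-(4 * L))) ^ 2 := by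
        positivity
      simp only [hF]
      nlinarith [mul_le_mul_of_nonneg_right h3 h5.le, mul_le_of_le_one_right h7 h4]
    refine hmono.trans ?_
    rw [intervalIntegral.integral_add (hi1.add hi2) hi3, intervalIntegral.integral_add hi1 hi2,
      intervalIntegral.integral_const_mul, intervalIntegral.integral_const_mul,
      integral_inv_sq_add_sq ha.ne', intervalIntegral.integral_const, smul_eq_mul]
    have h3 : ∫ t in (-H)..H, F t ≤ C₂ / L := by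
      rw [intervalIntegral.integral_of_le hHH]
      exact (setIntegral_le_integral hFi (Eventually.of_forall hF0)).trans hFle
    have h4 : Real.arctan (H / a) - Real.arctan (-H / a) ≤ Real.pi := by
      have := Real.arctan_lt_pi_div_two (H / a)
      have := Real.neg_pi_div_two_lt_arctan (-H / a)
      linarith
    have h5 : (H - -H) * (3 * (B * Real.exp (-(4 * L))) ^ 2) ≤ 6 * B ^ 2 / L := by
      have h6 : Real.exp (2 * L) * Real.exp (-(4 * L)) ^ 2 * L ≤ 1 := by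
        rw [← Real.exp_nat_mul, ← Real.exp_add]
        have h7 : L ≤ Real.exp L := by have := Real.add_one_le_exp L; linarith
        calc _ ≤ Real.exp (2 * L + (2 : ℕ) * -(4 * L)) * Real.exp L := by gcongr
          _ = Real.exp (2 * L + (2 : ℕ) * -(4 * L) + L) := (Real.exp_add _ _).symm
          _ ≤ 1 := Real.exp_le_one_iff.2 (by push_cast; linarith)
      rw [le_div_iff₀ hL0]
      calc _ = 6 * B ^ 2 * (H * Real.exp (-(4 * L)) ^ 2 * L) := by ring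
        _ ≤ 6 * B ^ 2 * (Real.exp (2 * L) * Real.exp (-(4 * L)) ^ 2 * L) := by gcongr
        _ ≤ 6 * B ^ 2 * 1 := by gcongr
        _ = _ := mul_one _
    have h8 : 1 / L ≤ 1 / (L ^ 2 * a) := by
      refine one_div_le_one_div_of_le (by positivity) ?_
      have : L * a ≤ 1 := by rwa [le_div_iff₀ hL0, mul_comm] at haL
      nlinarith
    have h9 : 3 * (A / L) ^ 2 * (a⁻¹ * (Real.arctan (H / a) - Real.arctan (-H / a)))
        ≤ 3 * A ^ 2 * Real.pi * (1 / (L ^ 2 * a)) := by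
      calc _ ≤ 3 * (A / L) ^ 2 * (a⁻¹ * Real.pi) := by gcongr
        _ = _ := by field_simp
    have h10 : C₂ / L ≤ C₂ * (1 / (L ^ 2 * a)) := by
      rw [div_eq_mul_one_div]; gcongr
    have h11 : 6 * B ^ 2 / L ≤ 6 * B ^ 2 * (1 / (L ^ 2 * a)) := by
      rw [div_eq_mul_one_div]; gcongr
    have h12 : 0 ≤ 2 * Real.exp 6 * (1 / (L ^ 2 * a)) := by positivity
    rw [div_eq_mul_one_div _ (L ^ 2 * a)]
    linarith

end

end Pool.Agent.H480Z.Mol
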