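import Mathlib

set_option autoImplicit false

namespace Pool.Agent.H480Z.Adp

/-- `W` is a relatively weakly open subset of the closed unit ball of `X`: the trace on the ball
of a set that is open for the weak topology of `X`. -/
def RelWeakOpen (X : Type*) [NormedAddCommGroup X] [NormedSpace ℝ X] (W : Set X) : Prop :=
  ∃ U : Set (WeakSpace ℝ X), IsOpen U ∧
    W = Metric.closedBall (0 : X) 1 ∩ (toWeakSpace ℝ X) ⁻¹' U

/-- The super alternative Daugavet property: `X` is infinite-dimensional and for every unit
vector `x` and every nonempty relatively weakly open subset `W` of the unit ball, the supremum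
over `y ∈ W` of `max ‖x + y‖ ‖x - y‖` equals `2`. -/
def SuperADP (X : Type*) [NormedAddCommGroup X] [NormedSpace ℝ X] : Prop :=
  ¬ FiniteDimensional ℝ X ∧
    ∀ x : X, ‖x‖ = 1 → ∀ W : Set X, RelWeakOpen X W → W.Nonempty →
      sSup ((fun y => max ‖x + y‖ ‖x - y‖) '' W) = 2

/-- A Schauder basis is 1-unconditional: changing the signs of the coefficients of a finite
linear combination does not change its norm. -/
def OneUnconditional {X : Type*} [NormedAddCommGroup X] [NormedSpace ℝ X]
    (e : SchauderBasis ℝ X) : Prop :=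
  ∀ (s : Finset ℕ) (a ε : ℕ → ℝ), (∀ n, ε n = 1 ∨ ε n = -1) →
    ‖∑ n ∈ s, (ε n * a n) • e n‖ = ‖∑ n ∈ s, a n • e n‖

end Pool.Agent.H480Z.Adp
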