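import Pool.Agent.H480Z.AdpDefs

set_option autoImplicit false

namespace Pool.Agent.H480Z.Adp

open Filter Topology

variable {X : Type*} [NormedAddCommGroup X] [NormedSpace ℝ X]

/-- The projection onto a finite set of coordinates. -/
noncomputable abbrev P (e : SchauderBasis ℝ X) (A : Finset ℕ) : X →L[ℝ] X :=
  GeneralSchauderBasis.proj e A

theorem P_comp (e : SchauderBasis ℝ X) (A B : Finset ℕ) (x : X) :
    P e A (P e B x) = P e (A ∩ B) x := by
  rw [GeneralSchauderBasis.proj_comp e A B x]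
  refine congrArg (fun C : Finset ℕ => GeneralSchauderBasis.proj e C x) ?_
  ext i
  simp only [Finset.mem_inter]

theorem refl_norm (e : SchauderBasis ℝ X) (h : OneUnconditional e) (A : Finset ℕ) (y : X) :
    ‖y - (2 : ℝ) • P e A y‖ = ‖y‖ := by
  classical
  have h1 : Tendsto (fun n => ‖e.proj n y - (2 : ℝ) • P e A y‖) atTop
      (𝓝 ‖y - (2 : ℝ) • P e A y‖) := ((e.tendsto_proj y).sub_const _).norm
  have h2 : Tendsto (fun n => ‖e.proj n y‖) atTop (𝓝 ‖y‖) := (e.tendsto_proj y).norm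
  refine tendsto_nhds_unique_of_eventuallyEq h1 h2 ?_
  filter_upwards [eventually_gt_atTop (A.sup id)] with n hn
  have hA : A ⊆ Finset.range n := fun i hi =>
    Finset.mem_range.2 (lt_of_le_of_lt (Finset.le_sup (f := id) hi) hn)
  have key := h (Finset.range n) (fun i => e.coord i y) (fun i => if i ∈ A then -1 else 1)
    (fun i => by by_cases hi : i ∈ A <;> simp [hi])
  rw [SchauderBasis.proj_apply, ← key]
  congr 1
  rw [GeneralSchauderBasis.proj_apply, Finset.smul_sum]
  have : ∑ i ∈ A, (2 : ℝ) • e.coord i y • e i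
      = ∑ i ∈ Finset.range n, if i ∈ A then (2 : ℝ) • e.coord i y • e i else 0 := by
    rw [← Finset.sum_filter]
    congr 1
    ext i
    simp only [Finset.mem_filter]
    exact ⟨fun hi => ⟨hA hi, hi⟩, fun hi => hi.2⟩
  rw [this, ← Finset.sum_sub_distrib]
  refine Finset.sum_congr rfl fun i _ => ?_
  by_cases hi : i ∈ A
  · simp only [hi, if_true]
    module
  · simp [hi]

theorem compl_norm (e : SchauderBasis ℝ X) (h : OneUnconditional e) (A : Finset ℕ) (y : X) :
    ‖y - P e A y‖ ≤ ‖y‖ := by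
  have h1 : y - P e A y = (1 / 2 : ℝ) • (y + (y - (2 : ℝ) • P e A y)) := by module
  rw [h1, norm_smul]
  have h2 := norm_add_le y (y - (2 : ℝ) • P e A y)
  rw [refl_norm e h] at h2
  rw [Real.norm_eq_abs, abs_of_pos (by norm_num : (0 : ℝ) < 1 / 2)]
  linarith

theorem weak_cont (e : SchauderBasis ℝ X) (A : Finset ℕ) :
    Continuous (fun y : WeakSpace ℝ X => P e A ((toWeakSpace ℝ X).symm y)) := by
  simp only [GeneralSchauderBasis.proj_apply]
  refine continuous_finsetSum _ fun i _ => ?_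
  refine Continuous.smul ?_ continuous_const
  exact WeakBilin.eval_continuous (topDualPairing ℝ X).flip (e.coord i)

omit [NormedSpace ℝ X] in
theorem sup_lt {x : X} {W : Set X} (hW : W.Nonempty) {c : ℝ} (hc : c < 2)
    (h : ∀ y ∈ W, max ‖x + y‖ ‖x - y‖ ≤ c) :
    sSup ((fun y => max ‖x + y‖ ‖x - y‖) '' W) ≠ 2 := by
  have : sSup ((fun y => max ‖x + y‖ ‖x - y‖) '' W) ≤ c := by
    refine csSup_le (hW.image _) ?_
    rintro _ ⟨y, hy, rfl⟩
    exact h y hy
  exact (lt_of_le_of_lt this hc).ne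

theorem split_one (e : SchauderBasis ℝ X) (h : OneUnconditional e) (hs : SuperADP X)
    (A B : Finset ℕ) (u v : X) (hAu : P e A u = u) (hAv : P e A v = 0) (hBu : P e B u = 0)
    (hBv : P e B v = v) (h1 : ‖u + v‖ = 1) : 1 ≤ max ‖u‖ ‖v‖ := by
  by_contra hlt
  push Not at hlt
  set m := max ‖u‖ ‖v‖ with hm
  set η := (1 - m) / 2 with hη
  have hηpos : 0 < η := by rw [hη]; linarith
  let U : Set (WeakSpace ℝ X) := {y | ‖P e A ((toWeakSpace ℝ X).symm y) - u‖ < η} ∩
    {y | ‖P e B ((toWeakSpace ℝ X).symm y) + v‖ < η}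
  have hU : IsOpen U :=
    (isOpen_lt ((weak_cont e A).sub continuous_const).norm continuous_const).inter
      (isOpen_lt ((weak_cont e B).add continuous_const).norm continuous_const)
  let W : Set X := Metric.closedBall (0 : X) 1 ∩ (toWeakSpace ℝ X) ⁻¹' U
  have hWne : W.Nonempty := by
    refine ⟨u - v, ?_, ?_, ?_⟩
    · have := refl_norm e h B (u + v)
      rw [map_add, hBu, hBv, h1] at this
      have h2 : u + v - (2 : ℝ) • (0 + v) = u - v := by module
      rw [h2] at this
      simp [this]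
    · show ‖P e A (u - v) - u‖ < η
      rw [map_sub, hAu, hAv]; simpa using hηpos
    · show ‖P e B (u - v) + v‖ < η
      rw [map_sub, hBu, hBv]; simpa using hηpos
  refine sup_lt hWne (c := m + η + 1) (by rw [hη]; linarith) ?_
    (hs.2 (u + v) h1 W ⟨U, hU, rfl⟩ hWne)
  rintro y ⟨hy, hyA, hyB⟩
  have hy1 : ‖y‖ ≤ 1 := by simpa using hy
  have hyA' : ‖P e A y - u‖ < η := hyA
  have hyB' : ‖P e B y + v‖ < η := hyB
  refine max_le ?_ ?_
  · have e1 : u + v + y = u + (P e B y + v) + (y - P e B y) := by abel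
    rw [e1]
    have := norm_add₃_le (a := u) (b := P e B y + v) (c := y - P e B y)
    have h3 := compl_norm e h B y
    have h4 : ‖u‖ ≤ m := le_max_left _ _
    linarith
  · have e1 : u + v - y = v + -(P e A y - u) + -(y - P e A y) := by abel
    rw [e1]
    have := norm_add₃_le (a := v) (b := -(P e A y - u)) (c := -(y - P e A y))
    rw [norm_neg, norm_neg] at this
    have h3 := compl_norm e h A y
    have h4 : ‖v‖ ≤ m := le_max_right _ _
    linarith

theorem split_le (e : SchauderBasis ℝ X) (h : OneUnconditional e) (hs : SuperADP X)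
    (A B : Finset ℕ) (u v : X) (hAu : P e A u = u) (hAv : P e A v = 0) (hBu : P e B u = 0)
    (hBv : P e B v = v) : ‖u + v‖ ≤ max ‖u‖ ‖v‖ := by
  rcases eq_or_lt_of_le (norm_nonneg (u + v)) with h0 | hpos
  · rw [← h0]; exact le_max_of_le_left (norm_nonneg _)
  set r := ‖u + v‖ with hr
  have hri : 0 < r⁻¹ := inv_pos.2 hpos
  have := split_one e h hs A B (r⁻¹ • u) (r⁻¹ • v) (by rw [map_smul, hAu])
    (by rw [map_smul, hAv, smul_zero]) (by rw [map_smul, hBu, smul_zero]) (by rw [map_smul, hBv])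
    (by rw [← smul_add, norm_smul, Real.norm_eq_abs, abs_of_pos hri, ← hr, inv_mul_cancel₀ hpos.ne'])
  rw [norm_smul, norm_smul, Real.norm_eq_abs, abs_of_pos hri, ← mul_max_of_nonneg _ _ hri.le] at this
  have h2 : r * 1 ≤ r * (r⁻¹ * max ‖u‖ ‖v‖) := mul_le_mul_of_nonneg_left this hpos.le
  rwa [mul_one, ← mul_assoc, mul_inv_cancel₀ hpos.ne', one_mul] at h2

theorem first_le (e : SchauderBasis ℝ X) (h : OneUnconditional e) (hs : SuperADP X)
    (u y : X) (hu : P e {0} u = u) :
    ‖u + (y - P e {0} y)‖ ≤ max ‖u‖ ‖y - P e {0} y‖ := by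
  classical
  set z := y - P e {0} y with hz
  have hz0 : P e {0} z = 0 := by
    rw [hz, map_sub, P_comp, Finset.inter_self, sub_self]
  have h1 : Tendsto (fun n => ‖u + e.proj n z‖) atTop (𝓝 ‖u + z‖) :=
    ((e.tendsto_proj z).const_add _).norm
  have h2 : Tendsto (fun n => max ‖u‖ ‖e.proj n z‖) atTop (𝓝 (max ‖u‖ ‖z‖)) :=
    tendsto_const_nhds.max (e.tendsto_proj z).norm
  refine le_of_tendsto_of_tendsto h1 h2 ?_
  filter_upwards [eventually_gt_atTop 0] with n hn
  have hn0 : 0 ∈ Finset.range n := Finset.mem_range.2 hn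
  have hc : e.coord 0 z • e 0 = 0 := by
    simpa [GeneralSchauderBasis.proj_apply] using hz0
  have hB : e.proj n z = P e ((Finset.range n).erase 0) z := by
    rw [SchauderBasis.proj_apply, GeneralSchauderBasis.proj_apply,
      ← Finset.add_sum_erase _ _ hn0, hc, zero_add]
  refine split_le e h hs {0} ((Finset.range n).erase 0) u _ hu ?_ ?_ ?_
  · rw [hB, P_comp]
    simp
  · rw [← hu, P_comp]
    simp
  · rw [hB, P_comp, Finset.inter_self]

theorem not_superADP (e : SchauderBasis ℝ X) (h : OneUnconditional e) : ¬ SuperADP X := by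
  classical
  intro hs
  have he0 : e 0 ≠ 0 := e.linearIndependent.ne_zero 0
  have hpos : 0 < ‖e 0‖ := norm_pos_iff.2 he0
  set x : X := ‖e 0‖⁻¹ • e 0 with hx
  have hx1 : ‖x‖ = 1 := by
    rw [hx, norm_smul, norm_inv, norm_norm, inv_mul_cancel₀ hpos.ne']
  have hPx : P e {0} x = x := by
    rw [hx, map_smul, GeneralSchauderBasis.proj_apply_basis_mem]; simp
  let U : Set (WeakSpace ℝ X) := {y | ‖P e {0} ((toWeakSpace ℝ X).symm y)‖ < 1 / 2}
  have hU : IsOpen U := isOpen_lt (weak_cont e {0}).norm continuous_const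
  let W : Set X := Metric.closedBall (0 : X) 1 ∩ (toWeakSpace ℝ X) ⁻¹' U
  have hWne : W.Nonempty := by
    refine ⟨0, by simp, ?_⟩
    show ‖P e {0} 0‖ < 1 / 2
    simp
  have key : ∀ y : X, ‖y‖ ≤ 1 → ‖P e {0} y‖ < 1 / 2 → ‖x + y‖ ≤ 3 / 2 := by
    intro y hy1 hy2
    have e1 : x + y = (x + P e {0} y) + (y - P e {0} y) := by abel
    have h1 := first_le e h hs (x + P e {0} y) y
      (by rw [map_add, hPx, P_comp, Finset.inter_self])
    rw [e1]
    refine h1.trans (max_le ?_ ?_)
    · have := norm_add_le x (P e {0} y)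
      linarith
    · have := compl_norm e h {0} y
      linarith
  refine sup_lt hWne (c := 3 / 2) (by norm_num) ?_ (hs.2 x hx1 W ⟨U, hU, rfl⟩ hWne)
  rintro y ⟨hy, hyU⟩
  have hy1 : ‖y‖ ≤ 1 := by simpa using hy
  have hy2 : ‖P e {0} y‖ < 1 / 2 := hyU
  refine max_le (key y hy1 hy2) ?_
  rw [sub_eq_add_neg]
  exact key (-y) (by simpa using hy1) (by simpa using hy2)

end Pool.Agent.H480Z.Adp
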