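import Pool.Agent.H480Z.BetaMain

set_option autoImplicit false

namespace Pool.Agent.H480Z.Beta

open Finset Function Filter Topology TopologicalSpace
open scoped BigOperators

/-- Precomposition as a continuous linear map. -/
noncomputable def pre {X Y : Type*} [TopologicalSpace X] [TopologicalSpace Y] (f : C(X, Y)) :
    C(Y, ℝ) →L[ℝ] C(X, ℝ) where
  toFun g := g.comp f
  map_add' _ _ := rfl
  map_smul' _ _ := rfl
  cont := ContinuousMap.continuous_precomp f

/-- `A` is isomorphic to a complemented subspace of `B`. -/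
def Compl (A B : Type*) [NormedAddCommGroup A] [NormedSpace ℝ A] [NormedAddCommGroup B]
    [NormedSpace ℝ B] : Prop :=
  ∃ (J : A →L[ℝ] B) (P : B →L[ℝ] A), ∀ a, P (J a) = a

section Abstract

variable {A B D : Type*} [NormedAddCommGroup A] [NormedSpace ℝ A] [NormedAddCommGroup B]
  [NormedSpace ℝ B] [NormedAddCommGroup D] [NormedSpace ℝ D]

theorem Compl.trans (h₁ : Compl A B) (h₂ : Compl B D) : Compl A D := by
  obtain ⟨J, P, h⟩ := h₁
  obtain ⟨J', P', h'⟩ := h₂
  exact ⟨J'.comp J, P.comp P', fun a => by simp [h, h']⟩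

theorem absorb (h : Compl B A) (hB : Nonempty (B ≃L[ℝ] B × B)) : Nonempty (A ≃L[ℝ] B × A) := by
  obtain ⟨J, P, h⟩ := h
  obtain ⟨s⟩ := hB
  let t := ContinuousLinearEquiv.equivOfRightInverse P J h
  exact ⟨t.trans ((s.prodCongr (ContinuousLinearEquiv.refl ℝ _)).trans
    ((ContinuousLinearEquiv.prodAssoc ℝ B B _).trans
      ((ContinuousLinearEquiv.refl ℝ B).prodCongr t.symm)))⟩

theorem pelczynski (h₁ : Compl A B) (h₂ : Compl B A) (hA : Nonempty (A ≃L[ℝ] A × A))
    (hB : Nonempty (B ≃L[ℝ] B × B)) : Nonempty (A ≃L[ℝ] B) := by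
  obtain ⟨s⟩ := absorb h₂ hB
  obtain ⟨t⟩ := absorb h₁ hA
  exact ⟨s.trans ((ContinuousLinearEquiv.prodComm ℝ B A).trans t.symm)⟩

end Abstract

theorem compl_of_retract {X Y : Type*} [TopologicalSpace X] [TopologicalSpace Y] [CompactSpace X]
    [CompactSpace Y] (i : C(X, Y)) (r : C(Y, X)) (h : ∀ x, r (i x) = x) :
    Compl C(X, ℝ) C(Y, ℝ) :=
  ⟨pre r, pre i, fun f => ContinuousMap.ext fun x => congrArg f (h x)⟩

theorem compl_main : Compl C(S × S × G, ℝ) C(S × S, ℝ) := ⟨pre Phi, proj, proj_comp⟩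

theorem square (T : Type*) [TopologicalSpace T] [CompactSpace T] :
    Nonempty (C(S × T, ℝ) ≃L[ℝ] C(S × T, ℝ) × C(S × T, ℝ)) := by
  let ev : C(S, S) := ext fun n => e (2 * n)
  let od : C(S, S) := ext fun n => e (2 * n + 1)
  let hf : C(S, S) := ext fun n => e (n / 2)
  let p : C(S, ℝ) := extR fun n => if n % 2 = 0 then 1 else 0
  have hp : ∀ n, p (e n) = if n % 2 = 0 then 1 else 0 :=
    extR_e _ (M := 1) fun n => by split_ifs <;> simp
  have hd : DenseRange (fun a : ℕ × T => (e a.1, a.2)) :=
    denseRange_stoneCechUnit.prodMap denseRange_id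
  have hext : ∀ F H : C(S × T, ℝ), (∀ n t, F (e n, t) = H (e n, t)) → F = H := fun F H h =>
    ContinuousMap.ext (congrFun (hd.equalizer F.continuous H.continuous
      (funext fun a => h a.1 a.2)))
  let f : C(S × T, ℝ) →L[ℝ] C(S × T, ℝ) × C(S × T, ℝ) :=
    (pre (ev.prodMap (ContinuousMap.id T))).prod (pre (od.prodMap (ContinuousMap.id T)))
  have hf1 : ∀ F n t, (f F).1 (e n, t) = F (e (2 * n), t) := fun F n t => by
    show F (ev (e n), t) = _
    rw [ext_e]
  have hf2 : ∀ F n t, (f F).2 (e n, t) = F (e (2 * n + 1), t) := fun F n t => by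
    show F (od (e n), t) = _
    rw [ext_e]
  refine ⟨ContinuousLinearEquiv.ofBijective f ?_ ?_⟩
  · rw [LinearMap.ker_eq_bot']
    intro F hF
    refine hext _ _ fun n t => ?_
    have hF' : f F = 0 := hF
    obtain ⟨m, rfl | rfl⟩ := Nat.even_or_odd' n
    · rw [← hf1, hF']; rfl
    · rw [← hf2, hF']; rfl
  · rw [LinearMap.range_eq_top]
    rintro ⟨F₀, F₁⟩
    let q : C(S × T, ℝ) := p.comp ContinuousMap.fst
    let F : C(S × T, ℝ) := q * F₀.comp (hf.prodMap (ContinuousMap.id T))
      + (1 - q) * F₁.comp (hf.prodMap (ContinuousMap.id T))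
    have hF : ∀ n t, F (e n, t) = p (e n) * F₀ (e (n / 2), t) + (1 - p (e n)) * F₁ (e (n / 2), t) := by
      intro n t
      show p (e n) * F₀ (hf (e n), t) + (1 - p (e n)) * F₁ (hf (e n), t) = _
      rw [ext_e]
    refine ⟨F, Prod.ext (hext _ _ fun n t => ?_) (hext _ _ fun n t => ?_)⟩
    · show (f F).1 (e n, t) = _
      rw [hf1, hF, hp]
      simp
    · show (f F).2 (e n, t) = _
      rw [hf2, hF, hp]
      have h1 : (2 * n + 1) % 2 = 1 := by omega
      have h2 : (2 * n + 1) / 2 = n := by omega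
      simp [h1, h2]

/-- The convergent sequence inside the Cantor set. -/
def K1 : Type := {g : G // ∀ i j, g i = true → g j = true → i = j}

instance : TopologicalSpace K1 := instTopologicalSpaceSubtype

theorem K1_closed : IsClosed {g : G | ∀ i j, g i = true → g j = true → i = j} := by
  simp only [Set.ofPred_forall]
  refine isClosed_iInter fun i => isClosed_iInter fun j => ?_
  by_cases h : i = j
  · simp [h]
  · have : (⋂ (_ : True), {g : G | ¬ (g i = true ∧ g j = true)}) =
        {g : G | ¬ (g i = true ∧ g j = true)} := by simp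
    have hc : Continuous (fun g : G => (g i, g j)) := (continuous_apply i).prodMk (continuous_apply j)
    have h2 := (isClosed_discrete {q : Bool × Bool | q.1 = true → q.2 = true → i = j}).preimage hc
    refine (congrArg IsClosed ?_).mp h2
    ext g
    simp

instance : CompactSpace K1 := isCompact_iff_compactSpace.1 K1_closed.isCompact

instance : MetrizableSpace K1 := Topology.IsEmbedding.subtypeVal.metrizableSpace

/-- The isolated points. -/
def pa (n : ℕ) : K1 := ⟨fun i => decide (i = n), fun i j hi hj => by simp_all⟩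

/-- The limit point. -/
def pinf : K1 := ⟨fun _ => false, fun i j hi _ => by simp at hi⟩

theorem K1_cases (g : K1) : g = pinf ∨ ∃ n, g = pa n := by
  by_cases h : ∃ n, g.1 n = true
  · obtain ⟨n, hn⟩ := h
    refine Or.inr ⟨n, Subtype.ext (funext fun i => ?_)⟩
    by_cases hi : i = n
    · simp [pa, hi, hn]
    · have : g.1 i ≠ true := fun h' => hi (g.2 i n h' hn)
      simp [pa, hi, this]
  · push Not at h
    exact Or.inl (Subtype.ext (funext fun i => by simpa [pinf] using h i))

instance : Infinite K1 := Infinite.of_injective pa fun n m h => by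
  have := congrFun (congrArg Subtype.val h) n
  simpa [pa] using this

theorem tendsto_pa : Tendsto pa atTop (𝓝 pinf) := by
  refine tendsto_subtype_rng.2 (tendsto_pi_nhds.2 fun i => tendsto_const_nhds.congr' ?_)
  filter_upwards [eventually_gt_atTop i] with n hn
  simp [pa, pinf, hn.ne]

open Classical in
/-- The retraction keeping only the first `true`. -/
noncomputable def retr : C(G, K1) where
  toFun g := ⟨fun n => decide (g n = true ∧ ∀ i < n, g i = false), fun i j hi hj => by
    simp only [decide_eq_true_eq] at hi hj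
    rcases lt_trichotomy i j with h | h | h
    · have := hj.2 i h; simp_all
    · exact h
    · have := hi.2 j h; simp_all⟩
  continuous_toFun := by
    refine Continuous.subtype_mk (continuous_pi fun n => cont_of_dep (n + 1) _ fun g g' h => ?_) _
    refine decide_eq_decide.2 ?_
    rw [h n (by omega)]
    refine and_congr_right fun _ => forall₂_congr fun i hi => ?_
    rw [h i (by omega)]

theorem retr_val (g : K1) : retr g.1 = g := by
  refine Subtype.ext (funext fun n => ?_)
  show decide _ = _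
  cases hn : g.1 n
  · simp
  · simp only [true_and, decide_eq_true_eq]
    intro i hi
    by_contra h
    exact hi.ne (g.2 i n (by simpa using h) hn)

theorem iso_main : Nonempty (C(S × S × K1, ℝ) ≃L[ℝ] C(S × S × G, ℝ)) := by
  refine pelczynski ?_ (compl_main.trans ?_) (square _) (square _)
  · refine compl_of_retract ((ContinuousMap.id S).prodMap ((ContinuousMap.id S).prodMap
      ⟨Subtype.val, continuous_subtype_val⟩))
      ((ContinuousMap.id S).prodMap ((ContinuousMap.id S).prodMap retr)) ?_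
    rintro ⟨s, t, g⟩
    exact Prod.ext rfl (Prod.ext rfl (retr_val g))
  · refine compl_of_retract ⟨fun p => (p.1, p.2, pinf), by fun_prop⟩
      ⟨fun p => (p.1, p.2.1), by fun_prop⟩ ?_
    rintro ⟨s, t⟩
    rfl

/-- Indicator of an isolated point. -/
noncomputable def en (n : ℕ) : C(K1, ℝ) :=
  ⟨fun g => if g.1 n = true then 1 else 0,
    (continuous_of_discreteTopology (f := fun b : Bool => if b = true then (1 : ℝ) else 0)).comp
      ((continuous_apply n).comp continuous_subtype_val)⟩

theorem sum_en_pa (s : Finset ℕ) (c : ℕ → ℝ) (m : ℕ) :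
    (∑ n ∈ s, c n • en n) (pa m) = if m ∈ s then c m else 0 := by
  simp [en, pa]

theorem sum_en_pinf (s : Finset ℕ) (c : ℕ → ℝ) : (∑ n ∈ s, c n • en n) pinf = 0 := by
  simp [en, pinf]

theorem norm_sum_en (s : Finset ℕ) (c : ℕ → ℝ) {M : ℝ} (hM : 0 ≤ M) (h : ∀ n ∈ s, |c n| ≤ M) :
    ‖∑ n ∈ s, c n • en n‖ ≤ M := by
  rw [ContinuousMap.norm_le _ hM]
  intro g
  rcases K1_cases g with rfl | ⟨m, rfl⟩
  · rw [sum_en_pinf]; simpa using hM
  · rw [sum_en_pa]
    split_ifs with hm
    · exact h m hm
    · simpa using hM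

theorem summable_en (φ : StrongDual ℝ C(K1, ℝ)) : Summable fun n => |φ (en n)| := by
  refine summable_of_sum_le (c := ‖φ‖) (fun _ => abs_nonneg _) fun s => ?_
  have h1 := norm_sum_en s (fun n => if 0 ≤ φ (en n) then 1 else -1) zero_le_one
    fun n _ => by split_ifs <;> simp
  have h2 := φ.le_of_opNorm_le_of_le le_rfl h1
  rw [mul_one, map_sum] at h2
  refine le_trans (le_of_eq ?_) ((le_abs_self _).trans h2)
  refine sum_congr rfl fun n _ => ?_
  rw [map_smul, smul_eq_mul]
  split_ifs with h
  · rw [abs_of_nonneg h, one_mul]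
  · rw [abs_of_neg (not_le.1 h), neg_one_mul]

/-- Finite approximation of a function. -/
noncomputable def fa (f : C(K1, ℝ)) (N : ℕ) : C(K1, ℝ) :=
  f pinf • (1 : C(K1, ℝ)) + ∑ n ∈ range N, (f (pa n) - f pinf) • en n

theorem tendsto_fa (f : C(K1, ℝ)) : Tendsto (fa f) atTop (𝓝 f) := by
  rw [Metric.tendsto_atTop]
  intro ε hε
  obtain ⟨N, hN⟩ := Metric.tendsto_atTop.1 ((f.continuous.tendsto pinf).comp tendsto_pa) ε hε
  refine ⟨N, fun n hn => ?_⟩
  rw [ContinuousMap.dist_lt_iff hε]
  intro g
  rcases K1_cases g with rfl | ⟨m, rfl⟩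
  · rw [fa, ContinuousMap.add_apply, sum_en_pinf]; simpa using hε
  · rw [fa, ContinuousMap.add_apply, sum_en_pa]
    split_ifs with hm
    · simpa using hε
    · have := hN m (hn.trans (by simpa using hm))
      rw [dist_comm]
      simpa using this

/-- Point evaluation. -/
noncomputable def dl {X : Type*} [TopologicalSpace X] [CompactSpace X] (x : X) :
    StrongDual ℝ C(X, ℝ) := ContinuousMap.evalCLM ℝ x

theorem sep_dual : SeparableSpace (StrongDual ℝ C(K1, ℝ)) := by
  rw [← isSeparable_univ_iff]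
  let D : Set (StrongDual ℝ C(K1, ℝ)) := insert (dl pinf) (Set.range fun n => dl (pa n))
  have hD : D.Countable := (Set.countable_range _).insert _
  refine hD.isSeparable.span (R := ℝ) |>.closure.mono fun φ _ => ?_
  let ψ : ℕ → StrongDual ℝ C(K1, ℝ) := fun N =>
    φ 1 • dl pinf + ∑ n ∈ range N, φ (en n) • (dl (pa n) - dl pinf)
  have hψ : ∀ N f, ψ N f = φ (fa f N) := by
    intro N f
    simp [ψ, fa, dl, mul_comm]
  refine mem_closure_of_tendsto (f := ψ) (b := atTop) ?_ (Eventually.of_forall fun N => ?_)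
  · refine (tendsto_iff_norm_sub_tendsto_zero (E := C(K1, ℝ) →L[ℝ] ℝ)).2 ?_
    have hs := summable_en φ
    have ht := (tendsto_sum_nat_add fun n => |φ (en n)|).const_mul 2
    rw [mul_zero] at ht
    refine squeeze_zero (fun N => (ψ N - φ).opNorm_nonneg) (fun N => ?_) ht
    refine ContinuousLinearMap.opNorm_le_bound (ψ N - φ)
      (mul_nonneg zero_le_two (tsum_nonneg fun _ => abs_nonneg _)) fun f => ?_
    have h1 : Tendsto (fun M => ‖φ (fa f N) - φ (fa f (M + N))‖) atTop (𝓝 ‖φ (fa f N) - φ f‖) :=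
      (((φ.continuous.tendsto f).comp ((tendsto_fa f).comp (tendsto_add_atTop_nat N))).const_sub
        _).norm
    rw [ContinuousLinearMap.sub_apply, hψ]
    refine le_of_tendsto' h1 fun M => ?_
    have h2 : φ (fa f (M + N)) - φ (fa f N)
        = ∑ n ∈ range M, (f (pa (n + N)) - f pinf) * φ (en (n + N)) := by
      simp only [fa, map_add, map_sum, map_smul, smul_eq_mul]
      rw [add_comm M N, sum_range_add]
      simp [add_comm]
    rw [norm_sub_rev, h2]
    refine (norm_sum_le _ _).trans ?_
    have h3 : ∑ n ∈ range M, |φ (en (n + N))| ≤ ∑' n, |φ (en (n + N))| :=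
      ((summable_nat_add_iff N).2 hs).sum_le_tsum _ fun _ _ => abs_nonneg _
    calc ∑ n ∈ range M, ‖(f (pa (n + N)) - f pinf) * φ (en (n + N))‖
        ≤ ∑ n ∈ range M, 2 * ‖f‖ * |φ (en (n + N))| := by
          refine sum_le_sum fun n _ => ?_
          rw [norm_mul]
          refine mul_le_mul_of_nonneg_right ?_ (abs_nonneg _)
          have := norm_sub_le (f (pa (n + N))) (f pinf)
          have h4 := f.norm_coe_le_norm (pa (n + N))
          have h5 := f.norm_coe_le_norm pinf
          linarith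
      _ = 2 * ‖f‖ * ∑ n ∈ range M, |φ (en (n + N))| := by rw [mul_sum]
      _ ≤ 2 * ‖f‖ * ∑' n, |φ (en (n + N))| := by gcongr
      _ = (2 * ∑' n, |φ (en (n + N))|) * ‖f‖ := by ring
  · have h0 : dl pinf ∈ Submodule.span ℝ D := Submodule.subset_span (Set.mem_insert _ _)
    refine Submodule.add_mem _ (Submodule.smul_mem _ _ h0) (Submodule.sum_mem _ fun n _ => ?_)
    exact Submodule.smul_mem _ _ (Submodule.sub_mem _
      (Submodule.subset_span (Set.mem_insert_of_mem _ ⟨n, rfl⟩)) h0)

theorem not_sep_dual : ¬ SeparableSpace (StrongDual ℝ C(G, ℝ)) := by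
  intro h
  have hc : Countable G := by
    refine Pairwise.countable_of_isOpen_disjoint
      (s := fun g : G => Metric.ball (dl g : StrongDual ℝ C(G, ℝ)) (1 / 2)) ?_
      (fun _ => Metric.isOpen_ball) (fun _ => Metric.nonempty_ball.2 (by norm_num))
    intro g g' hne
    refine Metric.ball_disjoint_ball ?_
    obtain ⟨n, hn⟩ := Function.ne_iff.1 hne
    let f : C(G, ℝ) := ⟨fun h => if h n = g n then 1 else 0,
      (continuous_of_discreteTopology (f := fun b : Bool => if b = g n then (1 : ℝ) else 0)).comp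
        (continuous_apply n)⟩
    have hf : ‖f‖ ≤ 1 := (ContinuousMap.norm_le _ zero_le_one).2 fun h => by
      show ‖(if h n = g n then (1 : ℝ) else 0)‖ ≤ 1
      split_ifs <;> simp
    have h2 := (dl g - dl g' : StrongDual ℝ C(G, ℝ)).le_of_opNorm_le_of_le le_rfl hf
    have h3 : (dl g - dl g' : StrongDual ℝ C(G, ℝ)) f = 1 := by
      show (if g n = g n then (1 : ℝ) else 0) - (if g' n = g n then (1 : ℝ) else 0) = 1
      simp [Ne.symm hn]
    rw [h3] at h2
    refine le_trans ?_ (dist_eq_norm (E := C(G, ℝ) →L[ℝ] ℝ) (dl g) (dl g')).ge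
    norm_num at h2 ⊢
    exact h2
  obtain ⟨f, hf⟩ := exists_surjective_nat G
  obtain ⟨n, hn⟩ := hf fun n => !f n n
  have := congrFun hn n
  simp at this

theorem not_iso : ¬ Nonempty (C(K1, ℝ) ≃L[ℝ] C(G, ℝ)) := by
  rintro ⟨T⟩
  have := sep_dual
  apply not_sep_dual
  let θ : StrongDual ℝ C(K1, ℝ) → StrongDual ℝ C(G, ℝ) := fun φ => φ.comp T.symm.toContinuousLinearMap
  have h1 : Continuous θ := by fun_prop
  have h2 : Surjective θ := fun ψ => ⟨ψ.comp T.toContinuousLinearMap, by ext f; simp [θ]⟩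
  exact h2.denseRange.separableSpace h1

end Pool.Agent.H480Z.Beta
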