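import Pool.Agent.H480Z.BetaRad

set_option autoImplicit false

namespace Pool.Agent.H480Z.Beta

open Finset Function Filter Topology
open scoped BigOperators

/-- The Stone-Cech compactification of the naturals. -/
abbrev S : Type := StoneCech ℕ

/-- The canonical embedding. -/
abbrev e : ℕ → S := stoneCechUnit

/-- The Cantor group. -/
abbrev G : Type := ℕ → Bool

instance : TotallyDisconnectedSpace S := by
  have : ExtremallyDisconnected (StoneCech ℕ) :=
    CompactT2.Projective.extremallyDisconnected StoneCech.projective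
  infer_instance

/-- Extension of a sequence in a compact Hausdorff space. -/
noncomputable def ext {T : Type*} [TopologicalSpace T] [T2Space T] [CompactSpace T] (f : ℕ → T) :
    C(S, T) :=
  ⟨stoneCechExtend (continuous_of_discreteTopology (f := f)), continuous_stoneCechExtend _⟩

@[simp] theorem ext_e {T : Type*} [TopologicalSpace T] [T2Space T] [CompactSpace T] (f : ℕ → T)
    (n : ℕ) : ext f (e n) = f n :=
  stoneCechExtend_stoneCechUnit (continuous_of_discreteTopology (f := f)) n

open Classical in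
/-- Extension of a bounded real sequence. -/
noncomputable def extR (f : ℕ → ℝ) : C(S, ℝ) :=
  if h : ∃ F : C(S, ℝ), ∀ n, F (e n) = f n then h.choose else 0

theorem extR_e (f : ℕ → ℝ) {M : ℝ} (hf : ∀ n, |f n| ≤ M) (n : ℕ) : extR f (e n) = f n := by
  have h : ∃ F : C(S, ℝ), ∀ n, F (e n) = f n := by
    refine ⟨(⟨Subtype.val, continuous_subtype_val⟩ : C(Set.Icc (-M) M, ℝ)).comp
      (ext fun n => (⟨f n, abs_le.1 (hf n)⟩ : Set.Icc (-M) M)), fun n => ?_⟩
    simp
  rw [extR, dif_pos h]
  exact h.choose_spec n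

theorem cont_of_dep {T : Type*} [TopologicalSpace T] (N : ℕ) (f : G → T)
    (h : ∀ g g' : G, (∀ i < N, g i = g' i) → f g = f g') : Continuous f := by
  have : f = (fun z : Fin N → Bool => f fun i => if h : i < N then z ⟨i, h⟩ else false) ∘
      (fun (g : G) (i : Fin N) => g i) := by
    funext g
    exact h _ _ fun i hi => by simp [hi]
  rw [this]
  exact continuous_of_discreteTopology.comp (continuous_pi fun i => continuous_apply _)

theorem norm_le_of_dense {α T : Type*} [TopologicalSpace T] [CompactSpace T] {d : α → T}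
    (hd : DenseRange d) (F : C(T, ℝ)) {M : ℝ} (hM : 0 ≤ M) (h : ∀ a, |F (d a)| ≤ M) : ‖F‖ ≤ M := by
  rw [ContinuousMap.norm_le _ hM]
  intro t
  refine hd.induction_on t (isClosed_le F.continuous.norm continuous_const) h

theorem exists_of_approx {α T : Type*} [TopologicalSpace T] [CompactSpace T] {d : α → T}
    (hd : DenseRange d) (h : α → ℝ)
    (happ : ∀ ε > 0, ∃ F : C(T, ℝ), ∀ a, |h a - F (d a)| ≤ ε) :
    ∃ F : C(T, ℝ), ∀ a, F (d a) = h a := by
  choose F hF using fun n : ℕ => happ (1 / ((n : ℝ) + 1)) Nat.one_div_pos_of_nat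
  have hc : CauchySeq F := by
    refine cauchySeq_of_le_tendsto_0 (fun n : ℕ => 2 * (1 / ((n : ℝ) + 1))) ?_ ?_
    · intro n m N hn hm
      rw [dist_eq_norm]
      refine norm_le_of_dense hd _ (by positivity) fun a => ?_
      have h1 := hF n a
      have h2 := hF m a
      have h3 : 1 / ((n : ℝ) + 1) ≤ 1 / ((N : ℝ) + 1) := Nat.one_div_le_one_div hn
      have h4 : 1 / ((m : ℝ) + 1) ≤ 1 / ((N : ℝ) + 1) := Nat.one_div_le_one_div hm
      rw [abs_le] at h1 h2 ⊢
      simp only [ContinuousMap.sub_apply]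
      constructor <;> linarith [h1.1, h1.2, h2.1, h2.2]
    · simpa using (tendsto_one_div_add_atTop_nhds_zero_nat (𝕜 := ℝ)).const_mul 2
  obtain ⟨F₀, hF₀⟩ := cauchySeq_tendsto_of_complete hc
  refine ⟨F₀, fun a => ?_⟩
  have h1 : Tendsto (fun n => F n (d a)) atTop (𝓝 (F₀ (d a))) :=
    ((continuous_eval_const (d a)).tendsto F₀).comp hF₀
  have h2 : Tendsto (fun n => F n (d a)) atTop (𝓝 (h a)) := by
    rw [tendsto_iff_norm_sub_tendsto_zero]
    refine squeeze_zero (fun _ => norm_nonneg _) (fun n => ?_)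
      (tendsto_one_div_add_atTop_nhds_zero_nat (𝕜 := ℝ))
    rw [Real.norm_eq_abs, abs_sub_comm]
    exact hF n a
  exact tendsto_nhds_unique h1 h2

/-- The dense set of points used. -/
def pt (a : ℕ × ℕ × G) : S × S × G := (e a.1, e a.2.1, a.2.2)

theorem dense_pt : DenseRange pt :=
  denseRange_stoneCechUnit.prodMap (denseRange_stoneCechUnit.prodMap denseRange_id)

/-- The ultrafilter. -/
noncomputable abbrev U : Filter ℕ := (hyperfilter ℕ : Filter ℕ)

theorem tendsto_lim (s : ℕ → ℝ) {M : ℝ} (hs : ∀ n, |s n| ≤ M) :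
    Tendsto s U (𝓝 (limUnder U s)) := by
  obtain ⟨x, -, hx⟩ := (isCompact_Icc (a := -M) (b := M)).ultrafilter_le_nhds
    ((hyperfilter ℕ).map s) (by
      rw [le_principal_iff, Ultrafilter.mem_coe, Ultrafilter.mem_map]
      exact Eventually.of_forall fun n => abs_le.1 (hs n))
  exact tendsto_nhds_limUnder ⟨x, hx⟩

/-- Column alphabet at level `n`. -/
abbrev Cn (n : ℕ) : Type := Fin (4 ^ n)

/-- Finite row space. -/
abbrev XN (N : ℕ) : Type := (n : Fin N) → Cn n → Bool

/-- Finite column space. -/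
abbrev YN (N : ℕ) : Type := (n : Fin N) → Cn n

/-- Row indices. -/
abbrev Row : Type := ℕ × Σ N, XN N

/-- Column indices. -/
abbrev Col : Type := ℕ × Σ N, YN N

/-- Encoding of a countable type. -/
noncomputable def enc (α : Type) [Countable α] : α → ℕ := (exists_injective_nat α).choose

/-- Decoding. -/
noncomputable def dec (α : Type) [Countable α] [Nonempty α] : ℕ → α := invFun (enc α)

@[simp] theorem dec_enc (α : Type) [Countable α] [Nonempty α] (a : α) : dec α (enc α a) = a :=
  leftInverse_invFun (exists_injective_nat α).choose_spec a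

instance : Nonempty Row := ⟨(0, ⟨0, fun _ _ => false⟩)⟩
instance : Nonempty Col := ⟨(0, ⟨0, fun _ => 0⟩)⟩

/-- Extension of a finite row. -/
def extX {N : ℕ} (x : XN N) : (n : ℕ) → Cn n → Bool :=
  fun n => if h : n < N then x ⟨n, h⟩ else fun _ => false

/-- Extension of a finite column. -/
def extY {N : ℕ} (y : YN N) : (n : ℕ) → Cn n :=
  fun n => if h : n < N then y ⟨n, h⟩ else 0

/-- The pairing. -/
def pair (p : ((n : ℕ) → Cn n → Bool) × ((n : ℕ) → Cn n)) : G := fun n => p.1 n (p.2 n)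

theorem pair_cont : Continuous pair := by
  refine continuous_pi fun n => ?_
  have h1 : Continuous (fun q : (Cn n → Bool) × Cn n => q.1 q.2) := continuous_of_discreteTopology
  have h2 : Continuous (fun p : ((n : ℕ) → Cn n → Bool) × ((n : ℕ) → Cn n) => (p.1 n, p.2 n)) :=
    ((continuous_apply n).comp continuous_fst).prodMk ((continuous_apply n).comp continuous_snd)
  exact h1.comp h2

/-- The quotient map. -/
noncomputable def Phi : C(S × S, S × S × G) where
  toFun p := (ext (fun n => e (dec Row n).1) p.1, ext (fun n => e (dec Col n).1) p.2,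
    pair (ext (fun n => extX (dec Row n).2.2) p.1, ext (fun n => extY (dec Col n).2.2) p.2))
  continuous_toFun := by
    refine ((ext _).continuous.comp continuous_fst).prodMk
      (((ext _).continuous.comp continuous_snd).prodMk (pair_cont.comp ?_))
    exact ((ext _).continuous.comp continuous_fst).prodMk ((ext _).continuous.comp continuous_snd)

/-- Row point. -/
noncomputable def rp (k N : ℕ) (x : XN N) : S := e (enc Row (k, ⟨N, x⟩))

/-- Column point. -/
noncomputable def cp (l N : ℕ) (y : YN N) : S := e (enc Col (l, ⟨N, y⟩))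

theorem Phi_pt (k l N : ℕ) (x : XN N) (y : YN N) :
    Phi (rp k N x, cp l N y) = (e k, e l, pair (extX x, extY y)) := by
  simp only [Phi, rp, cp, ContinuousMap.coe_mk, ext_e]
  rw [dec_enc, dec_enc]

/-- The conditional average at level `N`. -/
noncomputable def avg (A : C(S × S, ℝ)) (a : ℕ × ℕ × G) (N : ℕ) : ℝ :=
  𝔼 x : XN N, 𝔼 y : YN N, A (rp a.1 N (ov univ x y fun n => a.2.2 n), cp a.2.1 N y)

theorem avg_add (A B : C(S × S, ℝ)) (a : ℕ × ℕ × G) (N : ℕ) :
    avg (A + B) a N = avg A a N + avg B a N := by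
  simp [avg, expect_add_distrib]

theorem avg_sub (A B : C(S × S, ℝ)) (a : ℕ × ℕ × G) (N : ℕ) :
    avg (A - B) a N = avg A a N - avg B a N := by
  simp [avg, expect_sub_distrib]

theorem avg_smul (c : ℝ) (A : C(S × S, ℝ)) (a : ℕ × ℕ × G) (N : ℕ) :
    avg (c • A) a N = c * avg A a N := by
  simp [avg, mul_expect]

theorem avg_le (A : C(S × S, ℝ)) (a : ℕ × ℕ × G) (N : ℕ) : |avg A a N| ≤ ‖A‖ :=
  abs_expect_le_of _ fun _ => abs_expect_le_of _ fun _ => A.norm_coe_le_norm _

/-- Approximability of the limit averages by continuous functions. -/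
def Appr (A : C(S × S, ℝ)) : Prop :=
  ∀ ε > 0, ∃ F : C(S × S × G, ℝ), ∀ a, ∀ᶠ N in U, |avg A a N - F (pt a)| ≤ ε

theorem appr_zero : Appr 0 := fun ε hε =>
  ⟨0, fun a => Eventually.of_forall fun N => by simp [avg, hε.le]⟩

theorem appr_add {A B : C(S × S, ℝ)} (hA : Appr A) (hB : Appr B) : Appr (A + B) := by
  intro ε hε
  obtain ⟨F, hF⟩ := hA (ε / 2) (half_pos hε)
  obtain ⟨H, hH⟩ := hB (ε / 2) (half_pos hε)
  refine ⟨F + H, fun a => ?_⟩
  filter_upwards [hF a, hH a] with N h1 h2
  rw [avg_add, ContinuousMap.add_apply]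
  rw [abs_le] at h1 h2 ⊢
  constructor <;> linarith [h1.1, h1.2, h2.1, h2.2]

theorem appr_of_close {A : C(S × S, ℝ)} (h : ∀ ε > 0, ∃ B, Appr B ∧ ‖A - B‖ ≤ ε) : Appr A := by
  intro ε hε
  obtain ⟨B, hB, hAB⟩ := h (ε / 2) (half_pos hε)
  obtain ⟨F, hF⟩ := hB (ε / 2) (half_pos hε)
  refine ⟨F, fun a => ?_⟩
  filter_upwards [hF a] with N h1
  have h2 := (avg_le (A - B) a N).trans hAB
  rw [avg_sub] at h2
  rw [abs_le] at h1 h2 ⊢
  constructor <;> linarith [h1.1, h1.2, h2.1, h2.2]

/-- Partial override. -/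
def ov' (M : ℕ) {N : ℕ} (x : XN N) (y : YN M) (g : G) : XN N :=
  fun n => if h : (n : ℕ) < M then update (x n) (y ⟨n, h⟩) (g n) else x n

/-- Restriction of a column. -/
def res (M : ℕ) {N : ℕ} (y : YN N) : YN M := fun n => extY y n

theorem ov_eq (M : ℕ) {N : ℕ} (x : XN N) (y : YN N) (g : G) :
    ov (univ.filter fun n : Fin N => (n : ℕ) < M) x y (fun n => g n) = ov' M x (res M y) g := by
  funext n
  by_cases h : (n : ℕ) < M
  · simp [ov, ov', h, res, extY]
  · simp [ov, ov', h]

theorem tail_le (M N : ℕ) :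
    ∑ n ∈ univ.filter (fun n : Fin N => ¬ (n : ℕ) < M), (1 / 2 : ℝ) ^ (n : ℕ)
      ≤ 2 * (1 / 2) ^ M := by
  rw [sum_filter, Fin.sum_univ_eq_sum_range (fun n => if ¬ n < M then (1 / 2 : ℝ) ^ n else 0),
    ← sum_filter]
  have h1 : (range N).filter (fun n => ¬ n < M) = Ico M N := by
    ext n; simp [and_comm]
  rw [h1]
  have := geom_sum_Ico_le_of_lt_one (x := (1 / 2 : ℝ)) (m := M) (n := N) (by norm_num)
    (by norm_num)
  refine this.trans (le_of_eq ?_)
  ring

theorem appr_mul (u v : C(S, ℝ)) (A : C(S × S, ℝ)) (hA : ∀ s t, A (s, t) = u s * v t) :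
    Appr A := by
  intro ε hε
  obtain ⟨M, hM⟩ : ∃ M : ℕ, ‖u‖ * ‖v‖ * (2 * (1 / 2) ^ M) ≤ ε / 2 := by
    have h1 : Tendsto (fun M : ℕ => ‖u‖ * ‖v‖ * (2 * (1 / 2 : ℝ) ^ M)) atTop
        (𝓝 (‖u‖ * ‖v‖ * (2 * 0))) :=
      ((tendsto_pow_atTop_nhds_zero_of_lt_one (by norm_num) (by norm_num)).const_mul 2).const_mul _
    rw [mul_zero, mul_zero] at h1
    exact (h1.eventually (ge_mem_nhds (half_pos hε))).exists
  let α : ℕ → YN M → G → ℕ → ℝ := fun k y₀ g N => 𝔼 x : XN N, u (rp k N (ov' M x y₀ g))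
  let β : ℕ → YN M → ℕ → ℝ := fun l y₀ N =>
    𝔼 y : YN N, if res M y = y₀ then v (cp l N y) else 0
  have hα : ∀ k y₀ g N, |α k y₀ g N| ≤ ‖u‖ := fun k y₀ g N =>
    abs_expect_le_of _ fun _ => u.norm_coe_le_norm _
  have hβ : ∀ l y₀ N, |β l y₀ N| ≤ ‖v‖ := fun l y₀ N =>
    abs_expect_le_of _ fun y => by
      split_ifs
      · exact v.norm_coe_le_norm _
      · simp
  have hα' : ∀ k y₀ g, |limUnder U (α k y₀ g)| ≤ ‖u‖ := fun k y₀ g =>
    le_of_tendsto' (tendsto_lim _ (hα k y₀ g)).abs (hα k y₀ g)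
  have hβ' : ∀ l y₀, |limUnder U (β l y₀)| ≤ ‖v‖ := fun l y₀ =>
    le_of_tendsto' (tendsto_lim _ (hβ l y₀)).abs (hβ l y₀)
  let H : YN M → G → C(S, ℝ) := fun y₀ g => extR fun k => limUnder U (α k y₀ g)
  have hH : ∀ y₀, Continuous (H y₀) := by
    intro y₀
    refine cont_of_dep M _ fun g g' hgg => ?_
    have : ∀ k, α k y₀ g = α k y₀ g' := by
      intro k
      funext N
      refine expect_congr rfl fun x _ => ?_
      congr 2
      funext n
      by_cases h : (n : ℕ) < M
      · simp [ov', h, hgg n h]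
      · simp [ov', h]
    simp only [H, this]
  let K : YN M → C(S, ℝ) := fun y₀ => extR fun l => limUnder U (β l y₀)
  let F : C(S × S × G, ℝ) := ⟨fun p => ∑ y₀, H y₀ p.2.2 p.1 * K y₀ p.2.1, by
    refine continuous_finsetSum _ fun y₀ _ => Continuous.mul ?_ ?_
    · exact continuous_eval.comp
        (((hH y₀).comp (continuous_snd.comp continuous_snd)).prodMk continuous_fst)
    · exact (K y₀).continuous.comp (continuous_fst.comp continuous_snd)⟩
  refine ⟨F, fun a => ?_⟩
  obtain ⟨k, l, g⟩ := a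
  have hF : F (pt (k, l, g)) = ∑ y₀, limUnder U (α k y₀ g) * limUnder U (β l y₀) := by
    refine sum_congr rfl fun y₀ _ => ?_
    show H y₀ g (e k) * K y₀ (e l) = _
    rw [extR_e _ (fun k => hα' k y₀ g), extR_e _ (fun l => hβ' l y₀)]
  have hlim : Tendsto (fun N => ∑ y₀, α k y₀ g N * β l y₀ N) U (𝓝 (F (pt (k, l, g)))) := by
    rw [hF]
    exact tendsto_finsetSum _ fun y₀ _ => (tendsto_lim _ (hα k y₀ g)).mul (tendsto_lim _ (hβ l y₀))
  filter_upwards [Metric.tendsto_nhds.1 hlim (ε / 2) (half_pos hε)] with N hN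
  rw [Real.dist_eq] at hN
  have h1 := many (C := fun n : Fin N => Cn n) (univ.filter fun n : Fin N => (n : ℕ) < M)
    (univ.filter fun n : Fin N => ¬ (n : ℕ) < M) (disjoint_filter_filter_not _ _ _)
    (fun n => g n) (fun x => u (rp k N x)) (fun y => v (cp l N y)) (fun n => (1 / 2 : ℝ) ^ (n : ℕ))
    (fun _ => u.norm_coe_le_norm _) (fun _ => v.norm_coe_le_norm _) (fun _ => by positivity)
    (fun n => by
      rw [Fintype.card_fin, ← pow_mul, mul_comm (n : ℕ) 2, pow_mul]
      push_cast
      rw [← mul_pow]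
      norm_num)
  rw [union_comm, filter_union_filter_not_eq] at h1
  have h2 : avg A (k, l, g) N
      = 𝔼 x : XN N, 𝔼 y : YN N, u (rp k N (ov univ x y fun n => g n)) * v (cp l N y) := by
    simp only [avg, hA]
  have h3 : 𝔼 x : XN N, 𝔼 y : YN N,
      u (rp k N (ov (univ.filter fun n : Fin N => (n : ℕ) < M) x y fun n => g n)) * v (cp l N y)
      = ∑ y₀, α k y₀ g N * β l y₀ N := by
    simp only [ov_eq, α, β, expect_mul_expect]
    rw [← expect_sum_comm]
    refine expect_congr rfl fun x _ => ?_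
    rw [← expect_sum_comm]
    refine expect_congr rfl fun y _ => ?_
    simp
  rw [← h2, h3] at h1
  have h4 := mul_le_mul_of_nonneg_left (tail_le M N) (mul_nonneg (norm_nonneg u) (norm_nonneg v))
  have h5 := abs_sub_le (avg A (k, l, g) N) (∑ y₀, α k y₀ g N * β l y₀ N) (F (pt (k, l, g)))
  linarith

theorem appr_all (A : C(S × S, ℝ)) : Appr A := by
  refine appr_of_close fun ε hε => ?_
  obtain ⟨n, u, v, huv⟩ := ContinuousMap.exists_finite_sum_mul_approximation_of_mem_uniformity A
    (Metric.dist_mem_uniformity hε)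
  let B : Fin n → C(S × S, ℝ) := fun i =>
    (u i).comp ContinuousMap.fst * (v i).comp ContinuousMap.snd
  refine ⟨∑ i, B i, ?_, ?_⟩
  · exact sum_induction B Appr (fun _ _ => appr_add) appr_zero
      fun i _ => appr_mul (u i) (v i) _ fun _ _ => rfl
  · rw [ContinuousMap.norm_le _ hε.le]
    rintro ⟨s, t⟩
    have := huv s t
    simp only [Set.mem_ofPred_eq, dist_eq_norm] at this
    simpa [B] using this.le

/-- The limit relation. -/
def Rel (A : C(S × S, ℝ)) (F : C(S × S × G, ℝ)) : Prop :=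
  ∀ a, Tendsto (avg A a) U (𝓝 (F (pt a)))

theorem exists_rel (A : C(S × S, ℝ)) : ∃ F, Rel A F := by
  obtain ⟨F, hF⟩ := exists_of_approx dense_pt (fun a => limUnder U (avg A a)) (fun ε hε => by
    obtain ⟨F, hF⟩ := appr_all A ε hε
    exact ⟨F, fun a => le_of_tendsto ((tendsto_lim _ (avg_le A a)).sub_const _).abs (hF a)⟩)
  exact ⟨F, fun a => by rw [hF a]; exact tendsto_lim _ (avg_le A a)⟩

theorem rel_unique {A : C(S × S, ℝ)} {F H : C(S × S × G, ℝ)} (hF : Rel A F) (hH : Rel A H) :
    F = H := by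
  ext p
  exact congrFun (dense_pt.equalizer F.continuous H.continuous
    (funext fun a => tendsto_nhds_unique (hF a) (hH a))) p

/-- The projection. -/
noncomputable def proj : C(S × S, ℝ) →L[ℝ] C(S × S × G, ℝ) :=
  LinearMap.mkContinuous
    { toFun := fun A => (exists_rel A).choose
      map_add' := fun A B => rel_unique (exists_rel (A + B)).choose_spec fun a => by
        have := ((exists_rel A).choose_spec a).add ((exists_rel B).choose_spec a)
        exact this.congr fun N => (avg_add A B a N).symm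
      map_smul' := fun c A => rel_unique (exists_rel (c • A)).choose_spec fun a => by
        have := ((exists_rel A).choose_spec a).const_mul c
        exact this.congr fun N => (avg_smul c A a N).symm }
    1 fun A => by
      rw [one_mul]
      exact norm_le_of_dense dense_pt _ (norm_nonneg _) fun a =>
        le_of_tendsto' ((exists_rel A).choose_spec a).abs (avg_le A a)

theorem rel_comp (F : C(S × S × G, ℝ)) : Rel (F.comp Phi) F := by
  rintro ⟨k, l, g⟩
  refine Tendsto.mono_left ?_ Nat.hyperfilter_le_atTop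
  rw [Metric.tendsto_nhds]
  intro ε hε
  have hc : Continuous (fun h : G => F (e k, e l, h)) := by fun_prop
  have h1 : {h : G | dist (F (e k, e l, h)) (F (e k, e l, g)) < ε / 2} ∈ 𝓝 g :=
    Metric.tendsto_nhds.1 (hc.tendsto g) _ (half_pos hε)
  rw [nhds_pi, Filter.mem_pi] at h1
  obtain ⟨I, hI, t, ht, hsub⟩ := h1
  obtain ⟨M, hM⟩ := hI.bddAbove
  filter_upwards [eventually_gt_atTop M] with N hN
  have h2 : avg (F.comp Phi) (k, l, g) N - F (pt (k, l, g))
      = 𝔼 x : XN N, 𝔼 y : YN N,
        (F (e k, e l, pair (extX (ov univ x y fun n => g n), extY y)) - F (e k, e l, g)) := by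
    simp only [avg, ContinuousMap.comp_apply, Phi_pt, expect_sub_distrib, Fintype.expect_const]
    rfl
  rw [Real.dist_eq, h2]
  refine lt_of_le_of_lt (abs_expect_le_of _ fun x => abs_expect_le_of _ fun y => ?_)
    (half_lt_self hε)
  have h3 : pair (extX (ov univ x y fun n => g n), extY y) ∈ Set.pi I t := by
    intro i hi
    have hiN : i < N := lt_of_le_of_lt (hM hi) hN
    have : pair (extX (ov univ x y fun n => g n), extY y) i = g i := by
      simp [pair, extX, extY, hiN, ov]
    rw [this]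
    exact mem_of_mem_nhds (ht i)
  exact (hsub h3).le

theorem proj_comp (F : C(S × S × G, ℝ)) : proj (F.comp Phi) = F :=
  rel_unique (exists_rel _).choose_spec (rel_comp F)

end Pool.Agent.H480Z.Beta
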