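import Mathlib

set_option autoImplicit false

namespace Pool.Agent.H480Z.Beta

open Finset Function
open scoped BigOperators

theorem abs_expect_le_of {ι : Type*} [Fintype ι] [Nonempty ι] (f : ι → ℝ) {a : ℝ}
    (h : ∀ i, |f i| ≤ a) : |𝔼 i, f i| ≤ a :=
  (abs_expect_le _ _).trans (expect_le univ_nonempty fun i _ => h i)

theorem resample {ι : Type*} [Fintype ι] [DecidableEq ι] {D : ι → Type*} [∀ i, Fintype (D i)]
    [∀ i, Nonempty (D i)] (i : ι) (φ : (∀ i, D i) → ℝ) :
    𝔼 y, φ y = 𝔼 y, 𝔼 j : D i, φ (update y i j) := by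
  have h1 : 𝔼 y, 𝔼 j : D i, φ (update y i j)
      = 𝔼 p : (∀ i, D i) × D i, φ (update p.1 i p.2) := by
    rw [← univ_product_univ, expect_product]
  have h2 : 𝔼 y, φ y = 𝔼 p : (∀ i, D i) × D i, φ p.1 := by
    rw [← univ_product_univ, expect_product]
    simp
  rw [h1, h2]
  let σ : (∀ i, D i) × D i → (∀ i, D i) × D i := fun p => (update p.1 i p.2, p.1 i)
  have hσ : Involutive σ := by
    rintro ⟨y, j⟩
    simp [σ]
  exact (Fintype.expect_bijective σ hσ.bijective _ _ fun p => rfl).symm

section One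

variable {C : Type*} [Fintype C] [DecidableEq C]

/-- Rademacher function. -/
def rad (ε : Bool) (j : C) (z : C → Bool) : ℝ := if z j = ε then 1 else -1

/-- Flip one coordinate. -/
def flipAt (j : C) (z : C → Bool) : C → Bool := update z j (!z j)

omit [Fintype C] in
theorem flip_invol (j : C) : Involutive (flipAt j) := by
  intro z
  simp [flipAt]

theorem expect_flip (j : C) (φ : (C → Bool) → ℝ) : 𝔼 z, φ (flipAt j z) = 𝔼 z, φ z :=
  Fintype.expect_bijective (flipAt j) (flip_invol j).bijective _ _ fun _ => rfl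

theorem expect_update (ε : Bool) (j : C) (f : (C → Bool) → ℝ) :
    𝔼 z, f (update z j ε) - 𝔼 z, f z = 𝔼 z, f z * rad ε j z := by
  have h1 : ∀ z : C → Bool, f (update z j ε) = (if z j = ε then f z else 0)
      + (if (flipAt j z) j = ε then f (flipAt j z) else 0) := by
    intro z
    by_cases h : z j = ε
    · subst h
      simp [flipAt]
    · have h2 : (!z j) = ε := by cases hz : z j <;> cases ε <;> simp_all
      simp [flipAt, h, h2]
  simp_rw [h1]
  rw [expect_add_distrib, expect_flip j (fun z => if z j = ε then f z else 0),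
    ← expect_add_distrib, ← expect_sub_distrib]
  refine expect_congr rfl fun z _ => ?_
  by_cases h : z j = ε <;> simp [rad, h]

theorem rad_orth (ε : Bool) (j j' : C) :
    𝔼 z, rad ε j z * rad ε j' z = if j = j' then 1 else 0 := by
  by_cases h : j = j'
  · subst h
    have : ∀ z : C → Bool, rad ε j z * rad ε j z = 1 := by
      intro z; unfold rad; split_ifs <;> norm_num
    simp [this]
  · rw [if_neg h]
    have h1 := expect_flip j (fun z => rad ε j z * rad ε j' z)
    have h2 : ∀ z : C → Bool, rad ε j (flipAt j z) * rad ε j' (flipAt j z)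
        = -(rad ε j z * rad ε j' z) := by
      intro z
      have h3 : rad ε j' (flipAt j z) = rad ε j' z := by
        simp [rad, flipAt, update_of_ne (Ne.symm h)]
      have h4 : rad ε j (flipAt j z) = - rad ε j z := by
        simp only [rad, flipAt, update_self]
        cases z j <;> cases ε <;> simp
      rw [h3, h4]; ring
    simp_rw [h2] at h1
    rw [expect_neg_distrib] at h1
    linarith

theorem one_level [Nonempty C] (ε : Bool) (f : (C → Bool) → ℝ) (v : C → ℝ) {a b δ : ℝ}
    (hf : ∀ z, |f z| ≤ a) (hv : ∀ j, |v j| ≤ b) (hδ : 0 ≤ δ) (hc : 1 ≤ δ ^ 2 * Fintype.card C) :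
    |𝔼 z, 𝔼 j, (f (update z j ε) - f z) * v j| ≤ a * b * δ := by
  have ha : 0 ≤ a := (abs_nonneg _).trans (hf fun _ => true)
  have hb : 0 ≤ b := (abs_nonneg _).trans (hv (Classical.arbitrary C))
  have hcpos : (0 : ℝ) < Fintype.card C := by exact_mod_cast Fintype.card_pos
  set R : (C → Bool) → ℝ := fun z => 𝔼 j, rad ε j z * v j with hR
  have h1 : 𝔼 z, 𝔼 j, (f (update z j ε) - f z) * v j = 𝔼 z, f z * R z := by
    rw [expect_comm]
    have : ∀ j, 𝔼 z, (f (update z j ε) - f z) * v j = 𝔼 z, f z * (rad ε j z * v j) := by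
      intro j
      rw [← expect_mul, expect_sub_distrib, expect_update, expect_mul]
      exact expect_congr rfl fun z _ => by ring
    simp_rw [this]
    rw [expect_comm]
    exact expect_congr rfl fun z _ => (mul_expect _ _ _).symm
  have h2 : 𝔼 z, R z ^ 2 ≤ (b * δ) ^ 2 := by
    have h3 : ∀ z, R z ^ 2 = 𝔼 j, 𝔼 j', (rad ε j z * rad ε j' z) * (v j * v j') := by
      intro z
      rw [sq, hR, expect_mul_expect]
      exact expect_congr rfl fun j _ => expect_congr rfl fun j' _ => by ring
    simp_rw [h3]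
    rw [expect_comm]
    refine expect_le univ_nonempty fun j _ => ?_
    rw [expect_comm]
    simp_rw [← expect_mul, rad_orth]
    have h4 : 𝔼 j', (if j = j' then (1 : ℝ) else 0) * (v j * v j') = v j * v j / Fintype.card C := by
      rw [Fintype.expect_eq_sum_div_card]
      simp
    rw [h4, div_le_iff₀ hcpos]
    have h5 : v j * v j ≤ b ^ 2 := by
      have := abs_le.1 (hv j)
      nlinarith
    nlinarith [sq_nonneg b]
  have h6 : (𝔼 z, |R z|) ^ 2 ≤ (b * δ) ^ 2 := by
    have := expect_mul_sq_le_sq_mul_sq univ (fun z => |R z|) (fun _ => (1 : ℝ))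
    simp only [mul_one, sq_abs, one_pow, Fintype.expect_const] at this
    exact this.trans h2
  have h7 : 𝔼 z, |R z| ≤ b * δ :=
    (abs_le_of_sq_le_sq' h6 (mul_nonneg hb hδ)).2
  rw [h1]
  calc |𝔼 z, f z * R z| ≤ 𝔼 z, |f z * R z| := abs_expect_le _ _
    _ ≤ 𝔼 z, a * |R z| := expect_le_expect fun z _ => by
        rw [abs_mul]; exact mul_le_mul_of_nonneg_right (hf z) (abs_nonneg _)
    _ = a * 𝔼 z, |R z| := (mul_expect _ _ _).symm
    _ ≤ a * (b * δ) := mul_le_mul_of_nonneg_left h7 ha
    _ = a * b * δ := by ring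

end One

section Many

variable {ι : Type*} [Fintype ι] [DecidableEq ι] {C : ι → Type*} [∀ i, Fintype (C i)]
  [∀ i, DecidableEq (C i)] [∀ i, Nonempty (C i)]

/-- Override the entries `x i (y i)`, `i ∈ s`, by `g i`. -/
def ov (s : Finset ι) (x : ∀ i, C i → Bool) (y : ∀ i, C i) (g : ι → Bool) : ∀ i, C i → Bool :=
  fun i => if i ∈ s then update (x i) (y i) (g i) else x i

theorem step (s : Finset ι) (i : ι) (hi : i ∉ s) (g : ι → Bool) (u : (∀ i, C i → Bool) → ℝ)
    (v : (∀ i, C i) → ℝ) {a b δ : ℝ} (hu : ∀ x, |u x| ≤ a) (hv : ∀ y, |v y| ≤ b) (hδ : 0 ≤ δ)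
    (hc : 1 ≤ δ ^ 2 * Fintype.card (C i)) :
    |𝔼 x, 𝔼 y, (u (ov (insert i s) x y g) - u (ov s x y g)) * v y| ≤ a * b * δ := by
  rw [resample i]
  refine abs_expect_le_of _ fun x => ?_
  have h0 : ∀ z : C i → Bool,
      𝔼 y, (u (ov (insert i s) (update x i z) y g) - u (ov s (update x i z) y g)) * v y
      = 𝔼 y, 𝔼 j : C i, (u (update (ov s x y g) i (update z j (g i)))
          - u (update (ov s x y g) i z)) * v (update y i j) := by
    intro z
    rw [resample i]
    refine expect_congr rfl fun y _ => expect_congr rfl fun j _ => ?_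
    have h1 : ov (insert i s) (update x i z) (update y i j) g
        = update (ov s x y g) i (update z j (g i)) := by
      funext i'
      by_cases h : i' = i
      · subst h; simp [ov]
      · simp [ov, h]
    have h2 : ov s (update x i z) (update y i j) g = update (ov s x y g) i z := by
      funext i'
      by_cases h : i' = i
      · subst h; simp [ov, hi]
      · simp [ov, h]
    rw [h1, h2]
  simp_rw [h0]
  rw [expect_comm]
  refine abs_expect_le_of _ fun y => ?_
  exact one_level (g i) (fun z => u (update (ov s x y g) i z)) (fun j => v (update y i j))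
    (fun _ => hu _) (fun _ => hv _) hδ hc

theorem many (s t : Finset ι) (hst : Disjoint s t) (g : ι → Bool) (u : (∀ i, C i → Bool) → ℝ)
    (v : (∀ i, C i) → ℝ) {a b : ℝ} (δ : ι → ℝ) (hu : ∀ x, |u x| ≤ a) (hv : ∀ y, |v y| ≤ b)
    (hδ : ∀ i, 0 ≤ δ i) (hc : ∀ i, 1 ≤ δ i ^ 2 * Fintype.card (C i)) :
    |𝔼 x, 𝔼 y, u (ov (t ∪ s) x y g) * v y - 𝔼 x, 𝔼 y, u (ov s x y g) * v y|
      ≤ a * b * ∑ i ∈ t, δ i := by
  induction t using Finset.induction_on with
  | empty => simp
  | insert i t hi ih =>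
    rw [disjoint_insert_right] at hst
    have h1 := ih hst.2
    have h2 := step (t ∪ s) i (by simp [hi, hst.1]) g u v hu hv (hδ i) (hc i)
    have h3 : 𝔼 x, 𝔼 y, (u (ov (insert i (t ∪ s)) x y g) - u (ov (t ∪ s) x y g)) * v y
        = 𝔼 x, 𝔼 y, u (ov (insert i (t ∪ s)) x y g) * v y
          - 𝔼 x, 𝔼 y, u (ov (t ∪ s) x y g) * v y := by
      simp_rw [sub_mul, expect_sub_distrib]
    rw [h3] at h2
    rw [sum_insert hi, insert_union, mul_add]
    have h4 := abs_sub_le (𝔼 x, 𝔼 y, u (ov (insert i (t ∪ s)) x y g) * v y)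
      (𝔼 x, 𝔼 y, u (ov (t ∪ s) x y g) * v y) (𝔼 x, 𝔼 y, u (ov s x y g) * v y)
    linarith

end Many

end Pool.Agent.H480Z.Beta
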