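import Pool.Agent.H480Z.MonsterCore

set_option autoImplicit false

namespace Pool.Agent.H480Z.Monster

open Filter Topology
open scoped Pointwise

theorem finiteIndex_of_gens {k : ℕ} (hk : 2 ≤ k) (N : Subgroup (FreeGroup (Fin k))) [hN : N.Normal]
    (h : ∀ a ∈ gens k, ∀ b ∈ gens k, a⁻¹ * b ∈ N) : N.FiniteIndex := by
  let s : FreeGroup (Fin k) := FreeGroup.of ⟨0, by omega⟩
  have hs : s ∈ gens k := ⟨_, Or.inl rfl⟩
  have hs' : s⁻¹ ∈ gens k := ⟨_, Or.inr rfl⟩
  let π := QuotientGroup.mk' N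
  have h1 : ∀ a ∈ gens k, π a = π s := fun a ha => QuotientGroup.eq.2 (h a ha s hs)
  have h2 : π s * π s = 1 := by
    have := h1 _ hs'
    rw [map_inv] at this
    nth_rewrite 1 [← this]
    exact inv_mul_cancel _
  have h3 : ∀ x : FreeGroup (Fin k), π x = 1 ∨ π x = π s := by
    intro x
    induction x using FreeGroup.induction_on with
    | C1 => exact Or.inl (map_one π)
    | of i => exact Or.inr (h1 _ ⟨i, Or.inl rfl⟩)
    | inv_of i _ => exact Or.inr (h1 _ ⟨i, Or.inr rfl⟩)
    | mul x y hx hy =>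
      rw [map_mul]
      rcases hx with hx | hx <;> rcases hy with hy | hy <;> simp [hx, hy, h2]
  have : Finite (FreeGroup (Fin k) ⧸ N) := by
    refine Set.finite_univ_iff.1 (Set.Finite.subset (Set.toFinite {1, π s}) fun y _ => ?_)
    obtain ⟨x, rfl⟩ := QuotientGroup.mk'_surjective N y
    exact h3 x
  exact Subgroup.finiteIndex_of_finite_quotient

theorem mem_of_mul {A : Type*} [Group A] (N : Subgroup A) [hN : N.Normal] {a b r : A}
    (h : (a * r)⁻¹ * (b * r) ∈ N) : a⁻¹ * b ∈ N := by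
  have h3 := hN.conj_mem _ h r
  have h4 : r * ((a * r)⁻¹ * (b * r)) * r⁻¹ = a⁻¹ * b := by group
  rwa [h4] at h3

theorem spread_prod {k j : ℕ} (hk : 2 ≤ k) (hj : 1 ≤ j) : Spread (prodLabels k j hk) := by
  intro N hN h
  refine finiteIndex_of_gens hk N fun a ha b hb => ?_
  obtain ⟨i, rfl⟩ : ∃ i, j = i + 1 := ⟨j - 1, by omega⟩
  have key : ∀ x ∈ gens k, x * a ^ i ∈ (prodLabels k (i + 1) hk).carrier := by
    intro x hx
    show x * a ^ i ∈ gens k ^ (i + 1)
    rw [pow_succ']
    exact Set.mul_mem_mul hx (Set.pow_mem_pow ha)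
  exact mem_of_mul N (h _ (key a ha) _ (key b hb))

theorem reduced_mem {k : ℕ} (hk : 2 ≤ k) (i : ℕ) (x m : Fin k) (ε : Bool) (h : x = m → ε = true) :
    FreeGroup.mk [(x, ε)] * FreeGroup.of m ^ i ∈ (reducedLabels k (i + 1) hk).carrier := by
  show (FreeGroup.mk [(x, ε)] * FreeGroup.of m ^ i).toWord.length = i + 1
  have h1 : FreeGroup.of m ^ i = FreeGroup.mk (List.replicate i (m, true)) := by
    rw [← FreeGroup.toWord_of_pow, FreeGroup.mk_toWord]
  have h2 : FreeGroup.IsReduced ((x, ε) :: List.replicate i (m, true)) := by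
    cases i with
    | zero => simp
    | succ i =>
      rw [List.replicate_succ, FreeGroup.isReduced_cons_cons, ← List.replicate_succ]
      exact ⟨h, List.isChain_replicate_of_rel _ (fun _ => rfl)⟩
  rw [h1, FreeGroup.mul_mk, FreeGroup.toWord_mk, List.singleton_append, h2.reduce_eq]
  simp

theorem spread_reduced {k j : ℕ} (hk : 2 ≤ k) (hj : 1 ≤ j) : Spread (reducedLabels k j hk) := by
  intro N hN h
  obtain ⟨i, rfl⟩ : ∃ i, j = i + 1 := ⟨j - 1, by omega⟩
  have : Nontrivial (Fin k) := Fin.nontrivial_iff_two_le.2 hk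
  let s : FreeGroup (Fin k) := FreeGroup.of ⟨0, by omega⟩
  have h1 : ∀ x : Fin k, (FreeGroup.of x)⁻¹ * s ∈ N := fun x =>
    mem_of_mul N (h _ (reduced_mem hk i x ⟨0, by omega⟩ true fun _ => rfl) _
      (reduced_mem hk i ⟨0, by omega⟩ ⟨0, by omega⟩ true fun _ => rfl))
  have h2 : ∀ x : Fin k, ((FreeGroup.of x)⁻¹)⁻¹ * FreeGroup.of x ∈ N := fun x => by
    obtain ⟨m, hm⟩ := exists_ne x
    exact mem_of_mul N (h _ (reduced_mem hk i x m false fun h' => absurd h'.symm hm) _
      (reduced_mem hk i x m true fun _ => rfl))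
  have h3 : ∀ a ∈ gens k, a⁻¹ * s ∈ N := by
    rintro a ⟨x, rfl | rfl⟩
    · exact h1 x
    · have := N.mul_mem (h2 x) (h1 x)
      simpa [mul_assoc] using this
  refine finiteIndex_of_gens hk N fun a ha b hb => ?_
  have := N.mul_mem (h3 a ha) (N.inv_mem (h3 b hb))
  simpa [mul_assoc] using this

theorem not_acyclic_of_degree {V : Type} [Finite V] {Ω : SimpleGraph V} (hc : Ω.Connected)
    (hd : ∀ v, 2 ≤ (Ω.neighborSet v).ncard) : ¬ Ω.IsAcyclic := by
  classical
  intro ha
  have := Fintype.ofFinite V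
  have ht : Ω.IsTree := ⟨hc, ha⟩
  obtain ⟨v⟩ := hc.nonempty
  have hne : (Ω.neighborSet v).Nonempty := Set.nonempty_of_ncard_ne_zero (by have := hd v; omega)
  obtain ⟨w, hw⟩ := hne
  have : Nontrivial V := ⟨⟨v, w, Ω.ne_of_adj hw⟩⟩
  obtain ⟨u, hu⟩ := ht.exists_vert_degree_one_of_nontrivial
  have h2 := hd u
  rw [Set.ncard_eq_toFinset_card', ← SimpleGraph.neighborFinset_def,
    SimpleGraph.card_neighborFinset_eq_degree] at h2
  omega

/-- The side of `u` after deleting the edge `u v`. -/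
def side {V : Type} (Ω : SimpleGraph V) (u v : V) : Set V :=
  {w | (Ω.deleteEdges {s(u, v)}).Reachable u w}

theorem side_disjoint {V : Type} {Ω : SimpleGraph V} (ha : Ω.IsAcyclic) {u v : V}
    (h : Ω.Adj u v) : Disjoint (side Ω u v) (side Ω v u) := by
  rw [Set.disjoint_left]
  intro w h1 h2
  have hb := SimpleGraph.isAcyclic_iff_forall_adj_isBridge.1 ha h
  rw [SimpleGraph.isBridge_iff] at hb
  apply hb
  have h2' : (Ω.deleteEdges {s(u, v)}).Reachable v w := by
    rw [Sym2.eq_swap]; exact h2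
  exact SimpleGraph.Reachable.trans h1 h2'.symm

theorem side_boundary {V : Type} [Finite V] {Ω : SimpleGraph V} {u v : V} (h : Ω.Adj u v)
    (hv : v ∉ side Ω u v) :
    {e : Ω.Dart | e.fst ∈ side Ω u v ∧ e.snd ∉ side Ω u v}.ncard ≤ 1 := by
  have : Finite Ω.Dart := Finite.of_injective _ SimpleGraph.Dart.toProd_injective
  rw [Set.ncard_le_one_iff_subsingleton]
  have key : ∀ e : Ω.Dart, e.fst ∈ side Ω u v → e.snd ∉ side Ω u v → e = ⟨(u, v), h⟩ := by
    intro e h1 h2
    by_cases he : e.edge = s(u, v)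
    · rcases (SimpleGraph.dart_edge_eq_iff e ⟨(u, v), h⟩).1 he with h3 | h3
      · exact h3
      · rw [h3] at h1
        exact absurd h1 hv
    · exfalso
      apply h2
      refine SimpleGraph.Reachable.trans h1 (SimpleGraph.Adj.reachable ?_)
      rw [SimpleGraph.deleteEdges_adj]
      exact ⟨e.adj, he⟩
  intro e he e' he'
  rw [key e he.1 he.2, key e' he'.1 he'.2]

theorem mem_side {V : Type} {Ω : SimpleGraph V} (hc : Ω.Connected) {v w : V} (hw : w ≠ v) :
    ∃ u, Ω.Adj v u ∧ w ∈ side Ω u v := by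
  classical
  obtain ⟨p, hp⟩ := (hc v w).exists_isPath
  cases p with
  | nil => exact absurd rfl hw
  | @cons _ u _ h q =>
    refine ⟨u, h, ?_⟩
    have hvq : v ∉ q.support := by
      rw [SimpleGraph.Walk.cons_isPath_iff] at hp
      exact hp.2
    refine SimpleGraph.reachable_deleteEdges_iff_exists_walk.2 ⟨q, fun hmem => hvq ?_⟩
    exact q.snd_mem_support_of_mem_edges hmem

theorem card_le_of_tree {V : Type} [Finite V] {Ω : SimpleGraph V} (hc : Ω.Connected)
    (ha : Ω.IsAcyclic) {d : ℕ} (hd : ∀ v, (Ω.neighborSet v).ncard ≤ d) {c : ℝ} (hc0 : 0 < c)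
    (hch : CheegerAtLeast Ω c) : Nat.card V ≤ 1 + d * ⌈1 / c⌉₊ := by
  classical
  have := Fintype.ofFinite V
  set M := ⌈1 / c⌉₊ with hM
  have hsmall : ∀ u v, Ω.Adj u v → 2 * (side Ω u v).ncard ≤ Nat.card V →
      (side Ω u v).ncard ≤ M := by
    intro u v h h2
    have hv : v ∉ side Ω u v := fun hv =>
      Set.disjoint_left.1 (side_disjoint ha h) hv (SimpleGraph.Reachable.refl v)
    have h3 := hch _ h2
    have h4 : (({e : Ω.Dart | e.fst ∈ side Ω u v ∧ e.snd ∉ side Ω u v}.ncard : ℕ) : ℝ) ≤ 1 := by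
      exact_mod_cast side_boundary h hv
    have h5 : ((side Ω u v).ncard : ℝ) ≤ 1 / c := by
      rw [le_div_iff₀ hc0]; linarith
    exact_mod_cast h5.trans (Nat.le_ceil _)
  have hor : ∀ u v, Ω.Adj u v → (side Ω u v).ncard ≤ M ∨ (side Ω v u).ncard ≤ M := by
    intro u v h
    have h1 := Set.ncard_union_eq (side_disjoint ha h) (Set.toFinite _) (Set.toFinite _)
    have h2 : (side Ω u v ∪ side Ω v u).ncard ≤ Nat.card V := Set.ncard_le_card _
    by_cases h3 : 2 * (side Ω u v).ncard ≤ Nat.card V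
    · exact Or.inl (hsmall u v h h3)
    · exact Or.inr (hsmall v u h.symm (by omega))
  -- a vertex all of whose branches are small
  have hsink : ∃ v, ∀ u, Ω.Adj v u → (side Ω u v).ncard ≤ M := by
    by_contra hcon
    push Not at hcon
    choose f hf hf' using hcon
    have hinj : Function.Injective (fun v => (⟨s(v, f v), hf v⟩ : Ω.edgeSet)) := by
      intro v w hvw
      have h1 : s(v, f v) = s(w, f w) := congrArg Subtype.val hvw
      rcases Sym2.eq_iff.1 h1 with h2 | h2
      · exact h2.1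
      · exfalso
        have h3 := hf' v
        have h4 := hf' w
        rw [← h2.1, ← h2.2] at h4
        rcases hor v (f v) (hf v) with h5 | h5 <;> omega
    have h1 : Nat.card V ≤ Nat.card Ω.edgeSet := Nat.card_le_card_of_injective _ hinj
    have h2 := (SimpleGraph.isTree_iff_connected_and_card.1 (⟨hc, ha⟩ : Ω.IsTree)).2
    omega
  obtain ⟨v, hv⟩ := hsink
  have hcover : (Finset.univ : Finset V) ⊆
      insert v ((Ω.neighborFinset v).biUnion fun u => (side Ω u v).toFinset) := by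
    intro w _
    by_cases hw : w = v
    · simp [hw]
    · obtain ⟨u, hu, hw'⟩ := mem_side hc hw
      simp only [Finset.mem_insert, Finset.mem_biUnion, SimpleGraph.mem_neighborFinset,
        Set.mem_toFinset]
      exact Or.inr ⟨u, hu, hw'⟩
  have h1 := Finset.card_le_card hcover
  have h2 := Finset.card_insert_le v
    ((Ω.neighborFinset v).biUnion fun u => (side Ω u v).toFinset)
  have h3 : ((Ω.neighborFinset v).biUnion fun u => (side Ω u v).toFinset).card
      ≤ (Ω.neighborFinset v).card * M := by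
    refine Finset.card_biUnion_le_card_mul _ _ _ fun u hu => ?_
    rw [← Set.ncard_eq_toFinset_card']
    exact hv u ((Ω.mem_neighborFinset v u).1 hu)
  have h4 : (Ω.neighborFinset v).card ≤ d := by
    have := hd v
    rwa [Set.ncard_eq_toFinset_card', ← SimpleGraph.neighborFinset_def] at this
  have h5 : (Ω.neighborFinset v).card * M ≤ d * M := Nat.mul_le_mul_right _ h4
  rw [Finset.card_univ, ← Nat.card_eq_fintype_card] at h1
  omega

theorem infinite_cyc_of_expander {V : ℕ → Type} [∀ n, Finite (V n)] {Ω : ∀ n, SimpleGraph (V n)}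
    (hc : ∀ n, (Ω n).Connected) {d : ℕ} (hd : ∀ n v, ((Ω n).neighborSet v).ncard ≤ d)
    (hsize : Tendsto (fun n => Nat.card (V n)) atTop atTop) {c : ℝ} (hc0 : 0 < c)
    (hch : ∀ n, CheegerAtLeast (Ω n) c) : {n | ¬ (Ω n).IsAcyclic}.Infinite := by
  refine Nat.frequently_atTop_iff_infinite.1 (Eventually.frequently ?_)
  filter_upwards [hsize.eventually_gt_atTop (1 + d * ⌈1 / c⌉₊)] with n hn ha
  exact absurd (card_le_of_tree (hc n) ha (hd n) hc0 (hch n)) (not_le.2 hn)

theorem infinite_cyc_of_degree {V : ℕ → Type} [∀ n, Finite (V n)] {Ω : ∀ n, SimpleGraph (V n)}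
    (hc : ∀ n, (Ω n).Connected) (hd : ∀ n v, 2 ≤ ((Ω n).neighborSet v).ncard) :
    {n | ¬ (Ω n).IsAcyclic}.Infinite := by
  have : {n | ¬ (Ω n).IsAcyclic} = Set.univ :=
    Set.eq_univ_of_forall fun n => not_acyclic_of_degree (hc n) (hd n)
  rw [this]
  exact Set.infinite_univ

theorem countable_out_raag {W : Type} [Finite W] (Λ : SimpleGraph W) :
    Countable (Out (Raag Λ)) := by
  have h1 : Countable (Raag Λ) := (QuotientGroup.mk'_surjective _).countable
  have h2 : Group.FG (Raag Λ) := Group.fg_of_surjective (QuotientGroup.mk'_surjective _)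
  have h3 := countable_hom (Raag Λ) (Raag Λ)
  have h4 : Countable (MulAut (Raag Λ)) :=
    Function.Injective.countable (f := fun f : MulAut (Raag Λ) => (f : Raag Λ →* Raag Λ))
      fun f g h => MulEquiv.ext fun x => DFunLike.congr_fun h x
  exact (QuotientGroup.mk'_surjective _).countable

end Pool.Agent.H480Z.Monster
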