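import Pool.Agent.H480Z.MonsterDefs

set_option autoImplicit false

namespace Pool.Agent.H480Z.Monster

open MeasureTheory ProbabilityTheory Filter Topology
open scoped Pointwise ENNReal

variable {F : Type} [Group F] {L : LabelSet F}

section OneGraph

variable {V : Type} {Ω : SimpleGraph V}

open Classical in
/-- Change the label of one edge. -/
noncomputable def upd (α : Labelling L Ω) (e : Ω.Dart) (x : F) (hx : x ∈ L.carrier) :
    Labelling L Ω :=
  ⟨fun d => if d = e then x else if d = e.symm then x⁻¹ else α.1 d, by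
    constructor
    · intro d
      by_cases h1 : d = e
      · simpa [h1] using hx
      · by_cases h2 : d = e.symm
        · simpa [h2, e.symm_ne] using L.inv_mem x hx
        · simpa [h1, h2] using α.2.1 d
    · intro d
      by_cases h1 : d = e
      · subst h1
        simp [d.symm_ne]
      · by_cases h2 : d = e.symm
        · subst h2
          simp [e.symm_ne]
        · have h3 : d.symm ≠ e := fun h => h2 (by rw [← h, SimpleGraph.Dart.symm_symm])
          have h4 : d.symm ≠ e.symm := fun h => h1 (SimpleGraph.Dart.symm_involutive.injective h)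
          simp [h1, h2, h3, h4, α.2.2 d]⟩

theorem upd_self (α : Labelling L Ω) (e : Ω.Dart) (x : F) (hx : x ∈ L.carrier) :
    (upd α e x hx).1 e = x := by
  simp [upd]

theorem upd_other (α : Labelling L Ω) (e : Ω.Dart) (x : F) (hx : x ∈ L.carrier) (d : Ω.Dart)
    (h : d.edge ≠ e.edge) : (upd α e x hx).1 d = α.1 d := by
  have h1 : d ≠ e := fun h' => h (by rw [h'])
  have h2 : d ≠ e.symm := fun h' => h (by rw [h', SimpleGraph.Dart.edge_symm])
  simp [upd, h1, h2]

theorem upd_upd (α : Labelling L Ω) (e : Ω.Dart) (x : F) (hx : x ∈ L.carrier) :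
    upd (upd α e x hx) e (α.1 e) (α.2.1 e) = α := by
  refine Subtype.ext (funext fun d => ?_)
  by_cases h1 : d = e
  · subst h1; exact upd_self _ _ _ _
  · by_cases h2 : d = e.symm
    · subst h2
      simp [upd, e.symm_ne, α.2.2 e]
    · simp [upd, h1, h2]

/-- The labellings all of whose closed words lie in `N`. -/
def good (L : LabelSet F) (Ω : SimpleGraph V) (N : Subgroup F) : Set (Labelling L Ω) :=
  {α | ∀ (v : V) (p : Ω.Walk v v), (p.darts.map α.1).prod ∈ N}

theorem exists_dart (hΩ : ¬ Ω.IsAcyclic) (N : Subgroup F) [hN : N.Normal] {a b : F}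
    (ha : a ∈ L.carrier) (hb : b ∈ L.carrier) (hab : a⁻¹ * b ∉ N) :
    ∃ e : Ω.Dart, ∀ α : Labelling L Ω,
      upd α e a ha ∉ good L Ω N ∨ upd α e b hb ∉ good L Ω N := by
  simp only [SimpleGraph.IsAcyclic, not_forall, not_not] at hΩ
  obtain ⟨v, c, hc⟩ := hΩ
  cases c with
  | nil => exact absurd rfl hc.ne_nil
  | @cons _ w _ h q =>
    refine ⟨⟨(v, w), h⟩, fun α => ?_⟩
    by_contra hcon
    push Not at hcon
    have hnd : s(v, w) ∉ q.edges := by
      have := hc.isCircuit.isTrail.edges_nodup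
      rw [SimpleGraph.Walk.edges_cons, List.nodup_cons] at this
      exact this.1
    have key : ∀ (x : F) (hx : x ∈ L.carrier),
        ((SimpleGraph.Walk.cons h q).darts.map (upd α ⟨(v, w), h⟩ x hx).1).prod
          = x * (q.darts.map α.1).prod := by
      intro x hx
      rw [SimpleGraph.Walk.darts_cons, List.map_cons, List.prod_cons, upd_self]
      congr 2
      refine List.map_congr_left fun d hd => upd_other _ _ _ _ _ fun hde => hnd ?_
      have : d.edge ∈ q.edges := List.mem_map.2 ⟨d, hd, rfl⟩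
      rwa [hde] at this
    have h1 := hcon.1 v (SimpleGraph.Walk.cons h q)
    have h2 := hcon.2 v (SimpleGraph.Walk.cons h q)
    rw [key] at h1 h2
    apply hab
    have h3 := hN.conj_mem _ (N.mul_mem (N.inv_mem h1) h2) (q.darts.map α.1).prod
    have h4 : (q.darts.map α.1).prod * ((a * (q.darts.map α.1).prod)⁻¹ *
        (b * (q.darts.map α.1).prod)) * ((q.darts.map α.1).prod)⁻¹ = a⁻¹ * b := by group
    rwa [h4] at h3

theorem card_good_le [Finite V] (hΩ : ¬ Ω.IsAcyclic) (N : Subgroup F) [hN : N.Normal] {a b : F}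
    (ha : a ∈ L.carrier) (hb : b ∈ L.carrier) (hab : a⁻¹ * b ∉ N) :
    (good L Ω N).ncard ≤ L.carrier.ncard * (good L Ω N)ᶜ.ncard := by
  classical
  obtain ⟨e, he⟩ := exists_dart hΩ N ha hb hab
  have : Finite L.carrier := L.finite
  let f : good L Ω N → L.carrier × ((good L Ω N)ᶜ : Set _) := fun α =>
    (⟨α.1.1 e, α.1.2.1 e⟩, if h : upd α.1 e a ha ∉ good L Ω N then ⟨upd α.1 e a ha, h⟩
      else ⟨upd α.1 e b hb, (he α.1).resolve_left h⟩)
  have hf : ∀ α : good L Ω N, upd (f α).2.1 e (f α).1.1 (f α).1.2 = α.1 := by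
    intro α
    by_cases h : upd α.1 e a ha ∉ good L Ω N
    · simp only [f, dif_pos h]; exact upd_upd _ _ _ _
    · simp only [f, dif_neg h]; exact upd_upd _ _ _ _
  have hinj : Function.Injective f := by
    intro α β h
    apply Subtype.ext
    rw [← hf α, ← hf β]
    simp only [h]
  have := Nat.card_le_card_of_injective f hinj
  rw [Nat.card_prod] at this
  exact this

theorem measure_good_le [Finite V] (hΩ : ¬ Ω.IsAcyclic) (N : Subgroup F) [hN : N.Normal] {a b : F}
    (ha : a ∈ L.carrier) (hb : b ∈ L.carrier) (hab : a⁻¹ * b ∉ N) :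
    uniformOn (Set.univ : Set (Labelling L Ω)) (good L Ω N)
      ≤ (L.carrier.ncard : ℝ≥0∞) / (L.carrier.ncard + 1) := by
  have := Fintype.ofFinite (Labelling L Ω)
  have hms : MeasurableSingletonClass (Labelling L Ω) := ⟨fun _ => trivial⟩
  have h1 := card_good_le hΩ N ha hb hab
  have hc : ∀ s : Set (Labelling L Ω), Measure.count s = (s.ncard : ℝ≥0∞) := by
    intro s
    rw [Measure.count_apply_finite s (Set.toFinite s), Set.ncard_eq_toFinset_card s (Set.toFinite s)]
  have h2 : uniformOn (Set.univ : Set (Labelling L Ω)) (good L Ω N)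
      ≤ L.carrier.ncard * uniformOn (Set.univ : Set (Labelling L Ω)) (good L Ω N)ᶜ := by
    rw [uniformOn_univ, uniformOn_univ, hc, hc, ← mul_div_assoc]
    refine ENNReal.div_le_div_right ?_ _
    exact_mod_cast h1
  have h3 : uniformOn (Set.univ : Set (Labelling L Ω)) (good L Ω N)
      + uniformOn (Set.univ : Set (Labelling L Ω)) (good L Ω N)ᶜ = 1 :=
    prob_add_prob_compl trivial
  rw [ENNReal.le_div_iff_mul_le (Or.inl (by simp)) (Or.inl (by simp))]
  calc uniformOn (Set.univ : Set (Labelling L Ω)) (good L Ω N) * (L.carrier.ncard + 1)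
      = L.carrier.ncard * uniformOn (Set.univ : Set (Labelling L Ω)) (good L Ω N)
        + uniformOn (Set.univ : Set (Labelling L Ω)) (good L Ω N) := by ring
    _ ≤ L.carrier.ncard * uniformOn (Set.univ : Set (Labelling L Ω)) (good L Ω N)
        + L.carrier.ncard * uniformOn (Set.univ : Set (Labelling L Ω)) (good L Ω N)ᶜ := by
        gcongr
    _ = L.carrier.ncard := by rw [← mul_add, h3, mul_one]

end OneGraph

variable {V : ℕ → Type} [∀ n, Finite (V n)] {Ω : ∀ n, SimpleGraph (V n)}

theorem null_of_normal (hΩ : {n | ¬ (Ω n).IsAcyclic}.Infinite) (N : Subgroup F) [hN : N.Normal]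
    {a b : F} (ha : a ∈ L.carrier) (hb : b ∈ L.carrier) (hab : a⁻¹ * b ∉ N) :
    (labelMeasure L Ω : Measure (∀ n, Labelling L (Ω n))) {α | relators α ⊆ N} = 0 := by
  set q : ℝ≥0∞ := (L.carrier.ncard : ℝ≥0∞) / (L.carrier.ncard + 1) with hq
  have hq1 : q < 1 := by
    rw [hq, ENNReal.div_lt_iff (Or.inl (by simp)) (Or.inl (by simp)), one_mul]
    exact ENNReal.lt_add_right (by simp) one_ne_zero
  have hle : ∀ m : ℕ,
      (labelMeasure L Ω : Measure (∀ n, Labelling L (Ω n))) {α | relators α ⊆ N} ≤ q ^ m := by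
    intro m
    obtain ⟨s, hs, hcard⟩ := hΩ.exists_subset_card_eq m
    have hsub : {α : ∀ n, Labelling L (Ω n) | relators α ⊆ N}
        ⊆ Set.pi s (fun n => good L (Ω n) N) := by
      intro α hα n _ v p
      exact hα ⟨n, v, p, rfl⟩
    refine (measure_mono hsub).trans ?_
    have := Measure.infinitePi_pi (fun n => uniformOn (Set.univ : Set (Labelling L (Ω n))))
      (s := s) (t := fun n => good L (Ω n) N) (fun _ _ => trivial)
    refine (le_of_eq this).trans ?_
    rw [← hcard, ← Finset.prod_const]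
    exact Finset.prod_le_prod' fun n hn => measure_good_le (hs hn) N ha hb hab
  exact le_antisymm (ge_of_tendsto' (ENNReal.tendsto_pow_atTop_nhds_zero_of_lt_one hq1) hle)
    bot_le

/-- The labels are spread: a normal subgroup modulo which all labels agree has finite index. -/
def Spread (L : LabelSet F) : Prop :=
  ∀ N : Subgroup F, N.Normal → (∀ a ∈ L.carrier, ∀ b ∈ L.carrier, a⁻¹ * b ∈ N) → N.FiniteIndex

theorem ae_finiteIndex (hL : Spread L) (hΩ : {n | ¬ (Ω n).IsAcyclic}.Infinite)
    {I : Type*} [Countable I] (N : I → Subgroup F) (hN : ∀ i, (N i).Normal) :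
    ∀ᵐ α ∂(labelMeasure L Ω : Measure (∀ n, Labelling L (Ω n))),
      ∀ i, relators α ⊆ N i → (N i).FiniteIndex := by
  rw [ae_all_iff]
  intro i
  by_cases h : (N i).FiniteIndex
  · exact Eventually.of_forall fun _ _ => h
  · have h2 : ¬ ∀ a ∈ L.carrier, ∀ b ∈ L.carrier, a⁻¹ * b ∈ N i := fun h' => h (hL _ (hN i) h')
    push Not at h2
    obtain ⟨a, ha, b, hb, hab⟩ := h2
    have := hN i
    have h0 := null_of_normal hΩ (N i) ha hb hab
    rw [ae_iff]
    refine measure_mono_null (fun α hα => ?_) h0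
    by_contra h3
    exact hα fun h4 => absurd h4 h3

theorem countable_hom (A G : Type*) [Group A] [Group.FG A] [Group G] [Countable G] :
    Countable (A →* G) := by
  obtain ⟨S, hS, hfin⟩ := Group.fg_iff.1 (inferInstance : Group.FG A)
  have : Finite S := hfin
  refine Function.Injective.countable (f := fun (φ : A →* G) (s : S) => φ s) fun φ ψ h => ?_
  exact MonoidHom.eq_of_eqOn_dense hS fun x hx => congrFun h ⟨x, hx⟩

theorem finite_range_of_ker {A G : Type*} [Group A] [Group G] (φ : A →* G)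
    [φ.ker.FiniteIndex] : Finite φ.range :=
  Finite.of_equiv _ (QuotientGroup.quotientKerEquivRange φ).toEquiv

theorem hereditary [Countable F] [Group.FG F] (hL : Spread L)
    (hΩ : {n | ¬ (Ω n).IsAcyclic}.Infinite) (G : Type*) [Group G] [Countable G] :
    ∀ᵐ α ∂(labelMeasure L Ω : Measure (∀ n, Labelling L (Ω n))),
      ∀ H : Subgroup (monsterGroup α), H.FiniteIndex → ∀ φ : H →* G, Finite φ.range := by
  have hc1 : Countable {Λ : Subgroup F // Λ.FG} := by
    have : {Λ : Subgroup F | Λ.FG}.Countable := by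
      refine (Set.countable_range (fun S : Finset F => Subgroup.closure (S : Set F))).mono ?_
      rintro Λ ⟨S, hS⟩
      exact ⟨S, hS⟩
    exact this
  have hc2 : ∀ Λ : {Λ : Subgroup F // Λ.FG}, Countable (Λ.1 →* G) := fun Λ => by
    have := (Group.fg_iff_subgroup_fg Λ.1).2 Λ.2
    exact countable_hom _ _
  have key := ae_finiteIndex hL hΩ (I := Σ Λ : {Λ : Subgroup F // Λ.FG}, (Λ.1 →* G))
    (fun i => (i.2.ker.map i.1.1.subtype).normalCore) (fun _ => inferInstance)
  filter_upwards [key] with α hα H hH φ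
  let π : F →* monsterGroup α := QuotientGroup.mk' _
  have hπ : Function.Surjective π := QuotientGroup.mk'_surjective _
  let Λ : Subgroup F := H.comap π
  have hΛ : Λ.FiniteIndex := ⟨by rw [Subgroup.index_comap_of_surjective _ hπ]; exact hH.1⟩
  have hfg : Λ.FG := (Group.fg_iff_subgroup_fg Λ).1 inferInstance
  let ρ : Λ →* H := π.subgroupComap H
  have hρ : Function.Surjective ρ := by
    rintro ⟨y, hy⟩
    obtain ⟨x, rfl⟩ := hπ y
    exact ⟨⟨x, hy⟩, rfl⟩
  let ψ : Λ →* G := φ.comp ρ
  have hsub : Subgroup.normalClosure (relators α) ≤ (ψ.ker.map Λ.subtype).normalCore := by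
    rw [Subgroup.normal_le_normalCore]
    intro x hx
    have h1 : π x = 1 := (QuotientGroup.eq_one_iff x).2 hx
    have h2 : x ∈ Λ := by
      show π x ∈ H
      rw [h1]; exact H.one_mem
    refine ⟨⟨x, h2⟩, ?_, rfl⟩
    have h3 : ρ ⟨x, h2⟩ = 1 := Subtype.ext h1
    show φ (ρ ⟨x, h2⟩) = 1
    rw [h3, map_one]
  have hfi := hα ⟨⟨Λ, hfg⟩, ψ⟩ (fun x hx => hsub (Subgroup.subset_normalClosure hx))
  have hfi2 : (ψ.ker.map Λ.subtype).FiniteIndex :=
    Subgroup.finiteIndex_of_le (Subgroup.normalCore_le _)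
  have hfi3 : ψ.ker.FiniteIndex := by
    have h1 : (ψ.ker.map Λ.subtype).subgroupOf Λ = ψ.ker :=
      Subgroup.comap_map_eq_self_of_injective Λ.subtype_injective _
    rw [← h1]
    infer_instance
  have hr : φ.range = ψ.range := by
    ext g
    constructor
    · rintro ⟨y, rfl⟩
      obtain ⟨x, rfl⟩ := hρ y
      exact ⟨x, rfl⟩
    · rintro ⟨x, rfl⟩
      exact ⟨ρ x, rfl⟩
  rw [hr]
  exact finite_range_of_ker ψ

theorem superrigid [Countable F] [Group.FG F] (hL : Spread L)
    (hΩ : {n | ¬ (Ω n).IsAcyclic}.Infinite) (G : Type*) [Group G] [Countable G] :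
    ∀ᵐ α ∂(labelMeasure L Ω : Measure (∀ n, Labelling L (Ω n))),
      ∀ φ : monsterGroup α →* G, Finite φ.range := by
  filter_upwards [hereditary hL hΩ G] with α hα φ
  have := hα ⊤ inferInstance (φ.comp (⊤ : Subgroup _).subtype)
  have hr : φ.range = (φ.comp (⊤ : Subgroup _).subtype).range := by
    ext g
    constructor
    · rintro ⟨y, rfl⟩
      exact ⟨⟨y, trivial⟩, rfl⟩
    · rintro ⟨x, rfl⟩
      exact ⟨x, rfl⟩
  rwa [hr]

end Pool.Agent.H480Z.Monster
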