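import Mathlib

set_option autoImplicit false

namespace Pool.Agent.H480Z.Monster

open MeasureTheory ProbabilityTheory
open scoped Pointwise

/-- A set of admissible labels: a finite nonempty subset of a group closed under inversion. -/
structure LabelSet (F : Type) [Group F] where
  carrier : Set F
  finite : carrier.Finite
  nonempty : carrier.Nonempty
  inv_mem : ∀ x ∈ carrier, x⁻¹ ∈ carrier

/-- The symmetric generating set `T` of the free group `F_k`: the free generators and their
inverses. -/
def gens (k : ℕ) : Set (FreeGroup (Fin k)) :=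
  {x | ∃ i : Fin k, x = FreeGroup.of i ∨ x = (FreeGroup.of i)⁻¹}

theorem gens_finite (k : ℕ) : (gens k).Finite := by
  refine ((Set.finite_range (fun i : Fin k => FreeGroup.of i)).union
    (Set.finite_range (fun i : Fin k => (FreeGroup.of i)⁻¹))).subset ?_
  rintro x ⟨i, rfl | rfl⟩
  · exact Or.inl ⟨i, rfl⟩
  · exact Or.inr ⟨i, rfl⟩

theorem gens_inv (k : ℕ) : (gens k)⁻¹ = gens k := by
  ext x
  rw [Set.mem_inv]
  constructor
  · rintro ⟨i, h | h⟩
    · exact ⟨i, Or.inr (by rw [← h, inv_inv])⟩
    · exact ⟨i, Or.inl (inv_injective h)⟩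
  · rintro ⟨i, rfl | rfl⟩
    · exact ⟨i, Or.inr rfl⟩
    · exact ⟨i, Or.inl (inv_inv _)⟩

theorem gens_pow_finite (k j : ℕ) : (gens k ^ j).Finite := by
  induction j with
  | zero => simp
  | succ j ih => rw [pow_succ]; exact ih.mul (gens_finite k)

/-- The label set `T ^ j`: all products `t₁ ⋯ t_j` of `j` elements of `T` (pointwise power of the
set `T` in `F_k`). -/
def prodLabels (k j : ℕ) (hk : 2 ≤ k) : LabelSet (FreeGroup (Fin k)) where
  carrier := gens k ^ j
  finite := gens_pow_finite k j
  nonempty := Set.Nonempty.pow (s := gens k)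
    ⟨FreeGroup.of (⟨0, by omega⟩ : Fin k), ⟨⟨0, by omega⟩, Or.inl rfl⟩⟩
  inv_mem := fun x hx => by
    have h : x⁻¹ ∈ (gens k ^ j)⁻¹ := Set.inv_mem_inv.2 hx
    rwa [← inv_pow, gens_inv] at h

/-- The label set of reduced words of length `j`: the elements of `F_k` whose reduced word has
length exactly `j`. -/
def reducedLabels (k j : ℕ) (hk : 2 ≤ k) : LabelSet (FreeGroup (Fin k)) where
  carrier := {w | w.toWord.length = j}
  finite := Set.Finite.preimage (f := FreeGroup.toWord) FreeGroup.toWord_injective.injOn
    (List.finite_length_eq (Fin k × Bool) j)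
  nonempty := ⟨FreeGroup.of ⟨0, by omega⟩ ^ j, FreeGroup.norm_of_pow _ j⟩
  inv_mem := fun x hx => (FreeGroup.norm_inv_eq (x := x)).trans hx

variable {F : Type} [Group F]

/-- A symmetric labelling of a graph `Ω` with labels in `L`: a map from the oriented edges (darts)
of `Ω` to `L` sending the reversed edge to the inverse label. -/
def Labelling (L : LabelSet F) {V : Type} (Ω : SimpleGraph V) : Type :=
  {α : Ω.Dart → F // (∀ e, α e ∈ L.carrier) ∧ ∀ e, α e.symm = (α e)⁻¹}

instance (L : LabelSet F) {V : Type} (Ω : SimpleGraph V) : MeasurableSpace (Labelling L Ω) := ⊤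

instance (L : LabelSet F) {V : Type} [Finite V] (Ω : SimpleGraph V) :
    Finite (Labelling L Ω) := by
  have : Finite Ω.Dart := Finite.of_injective _ SimpleGraph.Dart.toProd_injective
  have : Finite L.carrier := L.finite
  exact Finite.of_injective (fun α : Labelling L Ω => fun e => (⟨α.1 e, α.2.1 e⟩ : L.carrier))
    (fun α β h => Subtype.ext (funext fun e => congrArg Subtype.val (congrFun h e)))

instance (L : LabelSet F) {V : Type} (Ω : SimpleGraph V) : Nonempty (Labelling L Ω) := by
  classical
  obtain ⟨a, ha⟩ := L.nonempty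
  let _ : LinearOrder V := linearOrderOfSTO WellOrderingRel
  refine ⟨⟨fun e => if e.fst < e.snd then a else a⁻¹, fun e => ?_, fun e => ?_⟩⟩
  · by_cases h : e.fst < e.snd
    · simpa [h] using ha
    · simpa [h] using L.inv_mem a ha
  · rcases lt_or_gt_of_ne e.fst_ne_snd with h | h
    · have h' : ¬ e.snd < e.fst := not_lt.2 h.le
      simp [h, h']
    · have h' : ¬ e.fst < e.snd := not_lt.2 h.le
      simp [h, h']

/-- The product over `n` of the uniform probability measures on the finite sets of symmetric
labellings of the finite graphs `Ω n`. -/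
noncomputable def labelMeasure (L : LabelSet F) {V : ℕ → Type} [∀ n, Finite (V n)]
    (Ω : ∀ n, SimpleGraph (V n)) : ProbabilityMeasure (∀ n, Labelling L (Ω n)) :=
  ⟨Measure.infinitePi (fun n => uniformOn (Set.univ : Set (Labelling L (Ω n)))), inferInstance⟩

/-- The set of words read along the closed paths of the graphs `Ω n` under the labelling `α`. -/
def relators {L : LabelSet F} {V : ℕ → Type} {Ω : ∀ n, SimpleGraph (V n)}
    (α : ∀ n, Labelling L (Ω n)) : Set F :=
  {w | ∃ (n : ℕ) (v : V n) (p : (Ω n).Walk v v), w = (p.darts.map (α n).1).prod}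

/-- The random monster group: the quotient of `F` by the normal closure of the words read along
closed paths. -/
abbrev monsterGroup {L : LabelSet F} {V : ℕ → Type} {Ω : ∀ n, SimpleGraph (V n)}
    (α : ∀ n, Labelling L (Ω n)) : Type :=
  F ⧸ Subgroup.normalClosure (relators α)

/-- The right-angled Artin group of a simple graph `Λ`: generated by the vertices, with the
relations `u v = v u` for the edges. -/
abbrev Raag {W : Type} (Λ : SimpleGraph W) : Type :=
  PresentedGroup {r : FreeGroup W | ∃ u v : W, Λ.Adj u v ∧
    r = FreeGroup.of u * FreeGroup.of v * (FreeGroup.of u)⁻¹ * (FreeGroup.of v)⁻¹}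

instance innerNormal (A : Type) [Group A] : (MulAut.conj : A →* MulAut A).range.Normal where
  conj_mem := by
    rintro _ ⟨a, rfl⟩ f
    refine ⟨f a, ?_⟩
    ext x
    simp [MulAut.conj_apply]

/-- The outer automorphism group: automorphisms modulo inner automorphisms. -/
abbrev Out (A : Type) [Group A] : Type :=
  MulAut A ⧸ (MulAut.conj : A →* MulAut A).range

/-- The Cheeger inequality with constant `c`: every vertex set `S` containing at most half of the
vertices is joined to its complement by at least `c * |S|` edges. -/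
def CheegerAtLeast {V : Type} (Ω : SimpleGraph V) (c : ℝ) : Prop :=
  ∀ S : Set V, 2 * S.ncard ≤ Nat.card V →
    c * S.ncard ≤ {e : Ω.Dart | e.fst ∈ S ∧ e.snd ∉ S}.ncard

end Pool.Agent.H480Z.Monster
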